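import Mathlib
import Pool.Agent.MPd14d18.Kempe

/-!
Edge colouring of the wreath product of graphs (MP_632be6_co, frozen statement S09181).
Statements of the parts.
-/

set_option autoImplicit false
open Finset
open Pool.Agent.MPd14d18 (mu)

namespace Pool.Agent.W143.WP

/-- Adding a vertex with multiplicities (Berge-Fournier / Ehrenfeucht-Faber-Kierstead for multigraphs). -/
def S_AV : Prop :=
  ∀ (W : Type) [Fintype W] [DecidableEq W] (x : W) (L : Finset ℕ) (m : ℕ → W → W),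
    (∀ c v, m c (m c v) = v) → (∀ c ∈ L, m c x = x) →
    ∀ (k : W → ℕ) (u0 : W), k x = 0 → ∑ u, k u ≤ L.card →
    (∀ u, 0 < k u → 2 * k u ≤ (L.filter (fun c => m c u = u)).card + (if u = u0 then 1 else 0)) →
    ∃ m' : ℕ → W → W, (∀ c v, m' c (m' c v) = v) ∧ (∀ c, c ∉ L → m' c = m c) ∧
      ∀ u w, u ≠ w → mu L m' u w = mu L m u w + (if u = x then k w else if w = x then k u else 0)

/-- Colouring a multigraph by inserting the vertices in order of decreasing `δ`. -/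
def S_INS : Prop :=
  ∀ (W : Type) [Fintype W] [DecidableEq W] (t : W → W → ℕ), (∀ u w, t u w = t w u) →
    ∀ (N : ℕ) (δ : W → ℕ) (p : W → W),
    (∀ x, ∑ w ∈ univ.erase x, t x w ≤ N) →
    (∀ x u, u ≠ x → 0 < t x u → δ x ≤ δ u →
      (t x u + ∑ w ∈ univ.erase u, t u w ≤ N) ∨
      (t x u + ∑ w ∈ univ.erase u, t u w ≤ N + 1 ∧
        (u = p x ∨ ∃ w, w ≠ u ∧ 0 < t u w ∧ δ w < δ x))) →
    ∃ m : ℕ → W → W, (∀ c v, m c (m c v) = v) ∧
      ∀ u w, u ≠ w → mu (range N) m u w = t u w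

/-- Perfect matching in a graph on `2k` vertices with minimum degree at least `k`. -/
def S_PM : Prop :=
  ∀ (α : Type) [Fintype α] [DecidableEq α] (N : α → Finset α) (k : ℕ),
    (∀ a b, b ∈ N a → a ∈ N b) → (∀ a, a ∉ N a) → Fintype.card α = 2 * k →
    (∀ a, k ≤ (N a).card) →
    ∃ σ : α → α, (∀ a, σ (σ a) = a) ∧ ∀ a, σ a ∈ N a

/-- König: the arcs of a regular symmetric relation split into permutations. -/
def S_KO : Prop :=
  ∀ (α : Type) [Fintype α] [DecidableEq α] (N : α → Finset α) (R : ℕ),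
    (∀ a b, b ∈ N a → a ∈ N b) → (∀ a, (N a).card = R) →
    ∃ f : α → α → ℕ, (∀ a, ∀ b ∈ N a, f a b < R) ∧
      (∀ a, ∀ b ∈ N a, ∀ b' ∈ N a, f a b = f a b' → b = b') ∧
      (∀ a, ∀ b ∈ N a, ∀ b' ∈ N a, f b a = f b' a → b = b')

/-- Regular graphs of even degree `R` exist on every set with more than `R` elements. -/
def S_CI : Prop :=
  ∀ (α : Type) [Fintype α] [DecidableEq α] (R : ℕ), Even R → R < Fintype.card α →
    ∃ N : α → Finset α, (∀ a b, b ∈ N a → a ∈ N b) ∧ (∀ a, a ∉ N a) ∧ ∀ a, (N a).card = R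

/-- The root class: a regular graph is contained, up to a matching, in a regular graph
of even degree. -/
def S_PR : Prop :=
  ∀ (α : Type) [Fintype α] [DecidableEq α] [Nonempty α] (N : α → Finset α) (r : ℕ),
    (∀ a b, b ∈ N a → a ∈ N b) → (∀ a, a ∉ N a) → (∀ a, (N a).card = r) →
    ∃ (R : ℕ) (P : α → Finset α), Even R ∧ R < Fintype.card α ∧
      (∀ a b, b ∈ P a → a ∈ P b) ∧ (∀ a, a ∉ P a) ∧ (∀ a, (P a).card = R) ∧
      ∀ a, (N a \ P a).card ≤ 1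

/-- The requirements on the rigid colouring `c` and the arrays `A j` (`j < Δ`), on a set `X`. -/
def Arr {W : Type} (G' : SimpleGraph W) (r : W → W → Prop) (Δ D : ℕ) (X : Set W)
    (c : W → W → ℕ) (A : ℕ → W → W → ℕ) : Prop :=
  (∀ v ∈ X, ∀ w, G'.Adj v w → c v w < D ∧ c v w = c w v) ∧
  (∀ v ∈ X, ∀ w w', G'.Adj v w → G'.Adj v w' → c v w = c v w' → w = w') ∧
  (∀ j < Δ, ∀ v ∈ X, ∀ w, r v w → A j v w < D) ∧
  (∀ j < Δ, ∀ v ∈ X, ∀ w w', r v w → r v w' → A j v w = A j v w' → w = w') ∧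
  (∀ j < Δ, ∀ v ∈ X, ∀ w w', r v w → r v w' → A j w v = A j w' v → w = w') ∧
  (∀ j < Δ, ∀ j' < Δ, j ≠ j' → ∀ v ∈ X, ∀ w w', r v w → r v w' →
    A j v w ≠ A j' v w' ∧ A j v w ≠ A j' w' v ∧ A j w v ≠ A j' w' v) ∧
  (∀ j < Δ, ∀ v ∈ X, ∀ w w', G'.Adj v w → r v w' → c v w ≠ A j v w' ∧ c v w ≠ A j w' v)

/-- Proper edge colouring exactly as in the frozen statement. -/
def Prop' {V : Type} (G : SimpleGraph V) {k : ℕ} (c : Sym2 V → Fin k) : Prop :=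
  ∀ e ∈ G.edgeSet, ∀ f ∈ G.edgeSet, e ≠ f → (∃ v, v ∈ e ∧ v ∈ f) → c e ≠ c f

/-- The arrays give an edge colouring of the product. -/
def S_COL : Prop :=
  ∀ (V W : Type) [Fintype V] [Fintype W] (G : SimpleGraph V) (G' : SimpleGraph W)
    (r : W → W → Prop) (_ : Equivalence r) (H : SimpleGraph (V × W))
    (_ : ∀ p q, H.Adj p q ↔ (p.1 = q.1 ∧ G'.Adj p.2 q.2) ∨ (G.Adj p.1 q.1 ∧ r p.2 q.2))
    (Δ D : ℕ) (_ : 0 < D) (l : Sym2 V → Fin Δ) (_ : Prop' G l)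
    (c : W → W → ℕ) (A : ℕ → W → W → ℕ) (_ : Arr G' r Δ D Set.univ c A),
    ∃ col : Sym2 (V × W) → Fin D, Prop' H col

/-- Depth function for a connected union of classes. -/
def S_DEP : Prop :=
  ∀ (W : Type) [Fintype W] [DecidableEq W] (G' : SimpleGraph W)
    (r : W → W → Prop) (_ : Equivalence r)
    (_ : ∀ v w u, r v w → G'.Adj v u → ∃ u', r u u' ∧ G'.Adj w u')
    (X Z : Finset W) (_ : ∀ v ∈ X, ∀ w, G'.Adj v w ∨ r v w → w ∈ X)
    (_ : ∀ S : Finset W, S ⊆ X → S.Nonempty → (∀ v ∈ S, ∀ w, G'.Adj v w ∨ r v w → w ∈ S) → S = X)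
    (_ : Z ⊆ X) (_ : Z.Nonempty) (_ : ∀ v ∈ Z, ∀ w, r v w → w ∈ Z),
    ∃ δ : W → ℕ, (∀ v ∈ X, δ v = 0 ↔ v ∈ Z) ∧ (∀ v w, r v w → δ v = δ w) ∧
      ∀ v ∈ X, 0 < δ v → ∃ w ∈ X, G'.Adj v w ∧ δ w < δ v

/-- The arrays exist on a connected union of classes. -/
def S_COMP : Prop :=
  ∀ (W : Type) [Fintype W] (G' : SimpleGraph W)
    (r : W → W → Prop) (_ : Equivalence r)
    (_ : ∀ v w u, r v w → {a | G'.Adj v a ∧ r u a}.ncard = {a | G'.Adj w a ∧ r u a}.ncard)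
    (Δ D : ℕ) (_ : 0 < Δ)
    (_ : ∀ v, Δ * {a | r v a}.ncard + {a | G'.Adj v a}.ncard ≤ D)
    (X : Finset W) (_ : X.Nonempty) (_ : ∀ v ∈ X, ∀ w, G'.Adj v w ∨ r v w → w ∈ X)
    (_ : ∀ S : Finset W, S ⊆ X → S.Nonempty → (∀ v ∈ S, ∀ w, G'.Adj v w ∨ r v w → w ∈ S) → S = X),
    ∃ c A, Arr G' r Δ D (X : Set W) c A

/-- The arrays exist. -/
def S_ARR : Prop :=
  ∀ (W : Type) [Fintype W] (G' : SimpleGraph W)
    (r : W → W → Prop) (_ : Equivalence r)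
    (_ : ∀ v w u, r v w → {a | G'.Adj v a ∧ r u a}.ncard = {a | G'.Adj w a ∧ r u a}.ncard)
    (Δ D : ℕ) (_ : 0 < Δ)
    (_ : ∀ v, Δ * {a | r v a}.ncard + {a | G'.Adj v a}.ncard ≤ D),
    ∃ c A, Arr G' r Δ D (Set.univ : Set W) c A

/-- The frozen statement. -/
def S_MAIN : Prop := by
  classical
  exact
  ∀ (V W : Type) [Fintype V] [Fintype W] (G : SimpleGraph V) (G' : SimpleGraph W)
    (H : SimpleGraph (V × W)),
    H = SimpleGraph.fromRel (fun p q : V × W =>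
          (p.1 = q.1 ∧ G'.Adj p.2 q.2) ∨
          (G.Adj p.1 q.1 ∧ ∃ φ : G' ≃g G', φ p.2 = q.2)) →
    G.edgeSet.Nonempty →
    sInf {k : ℕ | ∃ c : Sym2 V → Fin k, ∀ e ∈ G.edgeSet, ∀ f ∈ G.edgeSet,
            e ≠ f → (∃ v, v ∈ e ∧ v ∈ f) → c e ≠ c f} = G.maxDegree →
    sInf {k : ℕ | ∃ c : Sym2 (V × W) → Fin k, ∀ e ∈ H.edgeSet, ∀ f ∈ H.edgeSet,
            e ≠ f → (∃ v, v ∈ e ∧ v ∈ f) → c e ≠ c f} = H.maxDegree

end Pool.Agent.W143.WP
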