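import Mathlib
import Pool.Agent.W143.WP.Stm

set_option autoImplicit false
open Finset

namespace Pool.Agent.W143.WP

theorem t_ARR (hCOMP : S_COMP) : S_ARR := by
  intro W _ G' r hr heq Δ D hΔ hD
  classical
  let Q : SimpleGraph W :=
    { Adj := fun a b => a ≠ b ∧ (G'.Adj a b ∨ r a b)
      symm := ⟨fun a b h => ⟨h.1.symm, h.2.elim (fun h => Or.inl h.symm) (fun h => Or.inr (hr.symm h))⟩⟩
      loopless := ⟨fun a h => h.1 rfl⟩ }
  have hQ : ∀ v w, G'.Adj v w ∨ r v w → Q.connectedComponentMk v = Q.connectedComponentMk w := by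
    intro v w h
    by_cases hvw : v = w
    · rw [hvw]
    · have : Q.Adj v w := ⟨hvw, h⟩
      exact SimpleGraph.ConnectedComponent.sound this.reachable
  have hex : ∀ K : Q.ConnectedComponent, ∃ (c : W → W → ℕ) (A : ℕ → W → W → ℕ),
      Arr G' r Δ D {w | Q.connectedComponentMk w = K} c A := by
    intro K
    let X : Finset W := univ.filter (fun w => Q.connectedComponentMk w = K)
    have hXmem : ∀ w, w ∈ X ↔ Q.connectedComponentMk w = K := by intro w; simp [X]
    have hXset : (X : Set W) = {w | Q.connectedComponentMk w = K} := by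
      ext w; simp [X]
    rw [← hXset]
    refine hCOMP W G' r hr heq Δ D hΔ hD X ?_ ?_ ?_
    · obtain ⟨v, rfl⟩ := K.exists_rep
      exact ⟨v, (hXmem v).mpr rfl⟩
    · intro v hv w h
      rw [hXmem] at hv ⊢
      rw [← hv]
      exact (hQ v w h).symm
    · intro S hSX hS hcl
      obtain ⟨v, hv⟩ := hS
      refine Finset.Subset.antisymm hSX ?_
      intro w hw
      have h1 := (hXmem v).mp (hSX hv)
      have h2 := (hXmem w).mp hw
      have hreach : Q.Reachable v w := SimpleGraph.ConnectedComponent.exact (h1.trans h2.symm)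
      obtain ⟨p⟩ := hreach
      clear h1 h2 hw
      induction p with
      | nil => exact hv
      | cons hadj _ ih =>
        apply ih
        exact hcl _ hv _ hadj.2
  choose cK AK hK using hex
  refine ⟨fun v w => cK (Q.connectedComponentMk v) v w,
    fun j v w => AK (Q.connectedComponentMk v) j v w, ?_, ?_, ?_, ?_, ?_, ?_, ?_⟩
  · intro v _ w hvw
    obtain ⟨h1, -⟩ := hK (Q.connectedComponentMk v)
    have := h1 v rfl w hvw
    have he := hQ v w (Or.inl hvw)
    simp only [← he]
    exact this
  · intro v _ w w' hw hw' heq'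
    obtain ⟨-, h2, -⟩ := hK (Q.connectedComponentMk v)
    exact h2 v rfl w w' hw hw' heq'
  · intro j hj v _ w hw
    obtain ⟨-, -, h3, -⟩ := hK (Q.connectedComponentMk v)
    exact h3 j hj v rfl w hw
  · intro j hj v _ w w' hw hw' heq'
    obtain ⟨-, -, -, h4, -⟩ := hK (Q.connectedComponentMk v)
    exact h4 j hj v rfl w w' hw hw' heq'
  · intro j hj v _ w w' hw hw' heq'
    obtain ⟨-, -, -, -, h5, -⟩ := hK (Q.connectedComponentMk v)
    have he := hQ v w (Or.inr hw)
    have he' := hQ v w' (Or.inr hw')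
    simp only [← he, ← he'] at heq'
    exact h5 j hj v rfl w w' hw hw' heq'
  · intro j hj j' hj' hjj v _ w w' hw hw'
    obtain ⟨-, -, -, -, -, h6, -⟩ := hK (Q.connectedComponentMk v)
    have he := hQ v w (Or.inr hw)
    have he' := hQ v w' (Or.inr hw')
    simp only [← he, ← he']
    exact h6 j hj j' hj' hjj v rfl w w' hw hw'
  · intro j hj v _ w w' hw hw'
    obtain ⟨-, -, -, -, -, -, h7⟩ := hK (Q.connectedComponentMk v)
    have he' := hQ v w' (Or.inr hw')
    simp only [← he']
    exact h7 j hj v rfl w w' hw hw'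

end Pool.Agent.W143.WP
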