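import Mathlib
import Pool.Agent.W143.WP.Stm

set_option autoImplicit false
open Finset
open Pool.Agent.MPd14d18 (mu mu_eq_card mu_erase closed_exists kempe add_edge)

namespace Pool.Agent.W143.WP

namespace TAV

variable {W : Type} [Fintype W] [DecidableEq W]

theorem exists_unique_colour (L : Finset ℕ) (m : ℕ → W → W) (hm : ∀ c v, m c (m c v) = v)
    (k : W → ℕ) (u0 : W) (hu0 : 0 < k u0) (hcard : ∑ u, k u ≤ L.card)
    (hmiss : ∀ u, 2 * k u - (if u = u0 then 1 else 0) ≤ (L.filter (fun c => m c u = u)).card) :
    ∃ (m' : ℕ → W → W) (A : W → Finset ℕ), (∀ c v, m' c (m' c v) = v) ∧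
      (∀ c, c ∉ L → m' c = m c) ∧ (∀ u w, mu L m' u w = mu L m u w) ∧
      (∀ u, A u ⊆ L.filter (fun c => m' c u = u)) ∧
      (∀ u, (A u).card = 2 * k u - (if u = u0 then 1 else 0)) ∧
      ∃ i ∈ L, (univ.filter (fun u => i ∈ A u)).card = 1 := by
  classical
  let Valid : (ℕ → W → W) → (W → Finset ℕ) → Prop := fun m' A =>
    (∀ c v, m' c (m' c v) = v) ∧
      (∀ c, c ∉ L → m' c = m c) ∧ (∀ u w, mu L m' u w = mu L m u w) ∧
      (∀ u, A u ⊆ L.filter (fun c => m' c u = u)) ∧
      (∀ u, (A u).card = 2 * k u - (if u = u0 then 1 else 0))
  let x : (W → Finset ℕ) → ℕ → ℕ := fun A i => (univ.filter (fun u => i ∈ A u)).card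
  let Φ : (W → Finset ℕ) → ℕ := fun A => ∑ i ∈ L, (x A i) ^ 2
  have hex : ∃ n, ∃ m' A, Valid m' A ∧ Φ A = n := by
    have : ∀ u : W, ∃ B : Finset ℕ, B ⊆ L.filter (fun c => m c u = u) ∧
        B.card = 2 * k u - (if u = u0 then 1 else 0) := by
      intro u
      obtain ⟨B, hB1, hB2⟩ := Finset.exists_subset_card_eq (hmiss u)
      exact ⟨B, hB1, hB2⟩
    choose A hA using this
    exact ⟨Φ A, m, A, ⟨hm, fun _ _ => rfl, fun _ _ => rfl, fun u => (hA u).1,
      fun u => (hA u).2⟩, rfl⟩
  obtain ⟨m', A, hV, hΦ⟩ := Nat.find_spec hex
  have hmin : ∀ m'' A'', Valid m'' A'' → Φ A ≤ Φ A'' := by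
    intro m'' A'' h
    rw [hΦ]
    exact Nat.find_min' hex ⟨m'', A'', h, rfl⟩
  obtain ⟨hinv, hout, hmul, hAs, hAc⟩ := hV
  refine ⟨m', A, hinv, hout, hmul, hAs, hAc, ?_⟩
  -- claim 1
  have claim1 : ∀ i ∈ L, ∀ j ∈ L, x A i ≤ x A j + 2 := by
    intro i hi j hj
    by_contra hcon
    rw [not_le] at hcon
    have hij : i ≠ j := by
      rintro rfl; omega
    let X : Finset W := univ.filter (fun u => i ∈ A u)
    let Y : Finset W := univ.filter (fun u => j ∈ A u)
    have hXc : X.card = x A i := rfl
    have hYc : Y.card = x A j := rfl
    have hXfix : ∀ w ∈ X, m' i w = w := by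
      intro w hw
      rw [mem_filter] at hw
      have := hAs w hw.2
      rw [mem_filter] at this
      exact this.2
    obtain ⟨S, hSi, hSj, hlt, hle⟩ := closed_exists (m' i) (m' j) (hinv i) (hinv j) X Y hXfix
      _ univ rfl (fun w _ => mem_univ _) (fun w _ => mem_univ _)
      (by rw [Finset.univ_inter, Finset.univ_inter]; omega)
    let m'' : ℕ → W → W := fun c v => if v ∈ S then m' (Equiv.swap i j c) v else m' c v
    obtain ⟨k1, k2, k3⟩ := kempe L m' hinv i j hi hj S hSi hSj m'' (fun _ _ => rfl)
    let A'' : W → Finset ℕ := fun u =>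
      if u ∈ S then (A u).map (Equiv.swap i j).toEmbedding else A u
    have hmemA : ∀ u c, c ∈ A'' u ↔ if u ∈ S then Equiv.swap i j c ∈ A u else c ∈ A u := by
      intro u c
      by_cases hu : u ∈ S
      · simp only [A'', hu, if_true]
        rw [Finset.mem_map_equiv, Equiv.symm_swap]
      · simp only [A'', hu, if_false]
    have hV'' : Valid m'' A'' := by
      refine ⟨k1, fun c hc => (k2 c hc).trans (hout c hc), fun u w => (k3 u w).trans (hmul u w),
        ?_, ?_⟩
      · intro u c hc
        rw [hmemA] at hc
        by_cases huS : u ∈ S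
        · rw [if_pos huS] at hc
          have h1 := hAs u hc
          rw [mem_filter] at h1 ⊢
          refine ⟨?_, ?_⟩
          · by_cases hci : c = i
            · rw [hci]; exact hi
            · by_cases hcj : c = j
              · rw [hcj]; exact hj
              · rw [Equiv.swap_apply_of_ne_of_ne hci hcj] at h1; exact h1.1
          · simp only [m'', huS, if_true]
            exact h1.2
        · rw [if_neg huS] at hc
          have h1 := hAs u hc
          rw [mem_filter] at h1 ⊢
          refine ⟨h1.1, ?_⟩
          simp only [m'', huS, if_false]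
          exact h1.2
      · intro u
        by_cases huS : u ∈ S
        · simp only [A'', huS, if_true, Finset.card_map]
          exact hAc u
        · simp only [A'', huS, if_false]
          exact hAc u
    have hxother : ∀ c, c ≠ i → c ≠ j → x A'' c = x A c := by
      intro c hci hcj
      simp only [x]
      congr 1
      apply Finset.filter_congr
      intro u _
      rw [hmemA, Equiv.swap_apply_of_ne_of_ne hci hcj]
      simp
    have hxi : x A'' i = (S ∩ Y).card + (X \ S).card := by
      simp only [x]
      rw [← Finset.card_union_of_disjoint]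
      · congr 1
        ext u
        simp only [mem_filter, mem_union, mem_inter, mem_sdiff, X, Y, hmemA,
          Equiv.swap_apply_left, mem_univ, true_and]
        by_cases huS : u ∈ S
        · simp [huS]
        · simp [huS]
      · rw [Finset.disjoint_left]
        intro u hu hu'
        rw [mem_inter] at hu
        rw [mem_sdiff] at hu'
        exact hu'.2 hu.1
    have hxj : x A'' j = (S ∩ X).card + (Y \ S).card := by
      simp only [x]
      rw [← Finset.card_union_of_disjoint]
      · congr 1
        ext u
        simp only [mem_filter, mem_union, mem_inter, mem_sdiff, X, Y, hmemA,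
          Equiv.swap_apply_right, mem_univ, true_and]
        by_cases huS : u ∈ S
        · simp [huS]
        · simp [huS]
      · rw [Finset.disjoint_left]
        intro u hu hu'
        rw [mem_inter] at hu
        rw [mem_sdiff] at hu'
        exact hu'.2 hu.1
    have hXs : X.card = (S ∩ X).card + (X \ S).card := by
      rw [Finset.inter_comm, Finset.card_inter_add_card_sdiff]
    have hYs : Y.card = (S ∩ Y).card + (Y \ S).card := by
      rw [Finset.inter_comm, Finset.card_inter_add_card_sdiff]
    have hlt' : Φ A'' < Φ A := by
      simp only [Φ]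
      rw [← Finset.add_sum_erase L (fun c => (x A'' c) ^ 2) hi,
        ← Finset.add_sum_erase L (fun c => (x A c) ^ 2) hi,
        ← Finset.add_sum_erase (L.erase i) (fun c => (x A'' c) ^ 2)
          (mem_erase.mpr ⟨hij.symm, hj⟩),
        ← Finset.add_sum_erase (L.erase i) (fun c => (x A c) ^ 2)
          (mem_erase.mpr ⟨hij.symm, hj⟩)]
      have e : ∑ c ∈ (L.erase i).erase j, (x A'' c) ^ 2 =
          ∑ c ∈ (L.erase i).erase j, (x A c) ^ 2 := by
        refine Finset.sum_congr rfl fun c hc => ?_
        rw [mem_erase, mem_erase] at hc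
        rw [hxother c hc.2.1 hc.1]
      rw [e]
      have h1 : (x A'' i) ^ 2 + (x A'' j) ^ 2 < (x A i) ^ 2 + (x A j) ^ 2 := by
        rw [hxi, hxj, ← hXc, ← hYc, hXs, hYs]
        rw [← hXc, ← hYc, hXs, hYs] at hcon
        have h2 : (S ∩ X).card = (S ∩ Y).card + 1 ∨ (S ∩ X).card = (S ∩ Y).card + 2 := by
          omega
        rcases h2 with h2 | h2
        · rw [h2] at hcon ⊢
          nlinarith
        · rw [h2] at hcon ⊢
          nlinarith
      have h1' : x A'' i ^ 2 + (x A'' j ^ 2 + ∑ c ∈ (L.erase i).erase j, (x A c) ^ 2) <
          x A i ^ 2 + (x A j ^ 2 + ∑ c ∈ (L.erase i).erase j, (x A c) ^ 2) := by omega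
      exact h1'
    exact absurd (hmin m'' A'' hV'') (not_le.mpr hlt')
  -- double counting
  have hsum1 : ∑ i ∈ L, x A i = ∑ u, (A u).card := by
    simp only [x]
    simp_rw [Finset.card_filter]
    rw [Finset.sum_comm]
    refine Finset.sum_congr rfl fun u _ => ?_
    rw [← Finset.card_filter]
    congr 1
    ext c
    rw [mem_filter]
    constructor
    · intro h; exact h.2
    · intro h
      have := hAs u h
      rw [mem_filter] at this
      exact ⟨this.1, h⟩
  have hsum2 : ∑ u, (A u).card + 1 = 2 * ∑ u, k u := by
    have e1 : ∑ u, (A u).card = ∑ u, (2 * k u - (if u = u0 then 1 else 0)) :=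
      Finset.sum_congr rfl fun u _ => hAc u
    have e2 : ∑ u : W, (if u = u0 then 1 else 0) = 1 := by
      rw [Finset.sum_ite_eq' univ u0 (fun _ => 1), if_pos (mem_univ _)]
    rw [e1]
    calc ∑ u, (2 * k u - (if u = u0 then 1 else 0)) + 1
        = ∑ u, (2 * k u - (if u = u0 then 1 else 0)) + ∑ u : W, (if u = u0 then 1 else 0) := by
          rw [e2]
      _ = ∑ u, 2 * k u := by
          rw [← Finset.sum_add_distrib]
          refine Finset.sum_congr rfl fun u _ => ?_
          by_cases h : u = u0
          · subst h
            simp only [if_true]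
            omega
          · simp [h]
      _ = 2 * ∑ u, k u := by rw [Finset.mul_sum]
  by_contra hno
  push Not at hno
  have hex0 : ∃ j ∈ L, x A j = 0 := by
    by_contra h0
    push Not at h0
    have h2 : ∀ i ∈ L, 2 ≤ x A i := by
      intro i hi
      have h3 := h0 i hi
      have h4 : x A i ≠ 1 := hno i hi
      omega
    have h5 : ∑ i ∈ L, 2 ≤ ∑ i ∈ L, x A i := Finset.sum_le_sum h2
    simp at h5
    omega
  obtain ⟨j, hj, hj0⟩ := hex0
  have heven : Even (∑ i ∈ L, x A i) := by
    apply Finset.even_sum
    intro i hi
    have h1 := claim1 i hi j hj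
    have h2 : x A i ≠ 1 := hno i hi
    have h3 : x A i = 0 ∨ x A i = 2 := by omega
    rcases h3 with h3 | h3 <;> rw [h3] <;> decide
  obtain ⟨s, hs⟩ := heven
  omega

theorem add_vertex (x : W) :
    ∀ (n : ℕ) (L : Finset ℕ), L.card = n → ∀ (m : ℕ → W → W), (∀ c v, m c (m c v) = v) →
    (∀ c ∈ L, m c x = x) → ∀ (k : W → ℕ) (u0 : W), k x = 0 → ∑ u, k u ≤ n →
    (∀ u, 0 < k u → 2 * k u ≤ (L.filter (fun c => m c u = u)).card + (if u = u0 then 1 else 0)) →
    ∃ m' : ℕ → W → W, (∀ c v, m' c (m' c v) = v) ∧ (∀ c, c ∉ L → m' c = m c) ∧
      ∀ u w, u ≠ w → mu L m' u w = mu L m u w +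
        (if u = x then k w else if w = x then k u else 0) := by
  intro n
  induction n with
  | zero =>
    intro L hL m hm hx k u0 hkx hk hmiss
    have hk0 : ∀ u, k u = 0 := by
      intro u
      have := Finset.single_le_sum (f := k) (fun u _ => Nat.zero_le _) (mem_univ u)
      omega
    exact ⟨m, hm, fun _ _ => rfl, fun u w _ => by simp [hk0]⟩
  | succ n ih =>
    intro L hL m hm hx k u0 hkx hk hmiss
    by_cases hke : ∀ u, k u = 0
    · exact ⟨m, hm, fun _ _ => rfl, fun u w _ => by simp [hke]⟩
    · push Not at hke
      -- replace u0 by a vertex with positive multiplicity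
      obtain ⟨v0, hv0, hmiss0⟩ : ∃ v0, 0 < k v0 ∧ ∀ u,
          2 * k u - (if u = v0 then 1 else 0) ≤ (L.filter (fun c => m c u = u)).card := by
        by_cases h0 : 0 < k u0
        · refine ⟨u0, h0, fun u => ?_⟩
          by_cases hu : 0 < k u
          · have := hmiss u hu
            omega
          · have : k u = 0 := by omega
            rw [this]
            simp
        · obtain ⟨v0, hv0⟩ := hke
          refine ⟨v0, Nat.pos_of_ne_zero hv0, fun u => ?_⟩
          by_cases hu : 0 < k u
          · have h1 := hmiss u hu
            have h2 : u ≠ u0 := fun h => h0 (h ▸ hu)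
            rw [if_neg h2] at h1
            omega
          · have : k u = 0 := by omega
            rw [this]
            simp
      obtain ⟨m1, A, h1inv, h1out, h1mu, hAs, hAc, i, hi, hone⟩ :=
        exists_unique_colour L m hm k v0 hv0 (by omega) hmiss0
      obtain ⟨u1, hu1⟩ := Finset.card_eq_one.mp hone
      have hu1A : i ∈ A u1 := by
        have : u1 ∈ univ.filter (fun u => i ∈ A u) := by rw [hu1]; exact mem_singleton_self _
        rw [mem_filter] at this
        exact this.2
      have honly : ∀ u, u ≠ u1 → i ∉ A u := by
        intro u hne hiA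
        have : u ∈ univ.filter (fun u => i ∈ A u) := mem_filter.mpr ⟨mem_univ _, hiA⟩
        rw [hu1, mem_singleton] at this
        exact hne this
      have hku1 : 0 < k u1 := by
        by_contra h
        have h0 : k u1 = 0 := by omega
        have h1 := hAc u1
        rw [h0] at h1
        have h2 : (A u1).card = 0 := by rw [h1]; simp
        rw [Finset.card_eq_zero] at h2
        rw [h2] at hu1A
        exact absurd hu1A (Finset.notMem_empty i)
      have hm1u1 : m1 i u1 = u1 := by
        have := hAs u1 hu1A
        rw [mem_filter] at this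
        exact this.2
      have hm1x : ∀ c ∈ L, m1 c x = x := by
        have e1 : mu L m x x = L.card := by
          rw [mu_eq_card]
          congr 1
          exact Finset.filter_true_of_mem hx
        have e2 : (L.filter (fun c => m1 c x = x)).card = L.card := by
          rw [← mu_eq_card, h1mu, e1]
        intro c hc
        exact Finset.card_filter_eq_iff.mp e2 c hc
      have hxu1 : x ≠ u1 := fun h => by rw [h] at hkx; omega
      have hLe : (L.erase i).card = n := by
        rw [Finset.card_erase_of_mem hi]; omega
      have hsumk : ∑ u, (if u = u1 then k u - 1 else k u) + 1 = ∑ u, k u := by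
        rw [← Finset.add_sum_erase univ _ (mem_univ u1),
          ← Finset.add_sum_erase univ k (mem_univ u1)]
        have : ∑ u ∈ univ.erase u1, (if u = u1 then k u - 1 else k u) =
            ∑ u ∈ univ.erase u1, k u := by
          refine Finset.sum_congr rfl fun u hu => ?_
          rw [mem_erase] at hu
          simp [hu.1]
        rw [this]
        simp only [if_true]
        omega
      have hAle : ∀ u, u ≠ u1 → (A u).card ≤ ((L.erase i).filter (fun c => m1 c u = u)).card := by
        intro u hu
        apply Finset.card_le_card
        intro c hc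
        have h3 := hAs u hc
        rw [mem_filter] at h3 ⊢
        refine ⟨?_, h3.2⟩
        rw [mem_erase]
        refine ⟨?_, h3.1⟩
        rintro rfl
        exact honly u hu hc
      have hAle1 : (A u1).card ≤ ((L.erase i).filter (fun c => m1 c u1 = u1)).card + 1 := by
        have : (A u1).card = ((A u1).erase i).card + 1 := by
          rw [Finset.card_erase_of_mem hu1A]
          have : 0 < (A u1).card := Finset.card_pos.mpr ⟨i, hu1A⟩
          omega
        rw [this]
        have h4 : ((A u1).erase i).card ≤ ((L.erase i).filter (fun c => m1 c u1 = u1)).card := by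
          apply Finset.card_le_card
          intro c hc
          rw [mem_erase] at hc
          have h3 := hAs u1 hc.2
          rw [mem_filter] at h3 ⊢
          exact ⟨mem_erase.mpr ⟨hc.1, h3.1⟩, h3.2⟩
        omega
      obtain ⟨m2, h2inv, h2out, h2mu⟩ := ih (L.erase i) hLe m1 h1inv
        (fun c hc => hm1x c (mem_of_mem_erase hc)) (fun u => if u = u1 then k u - 1 else k u) v0
        (by simp only [hxu1, if_false]; exact hkx)
        (by
          show ∑ u, (if u = u1 then k u - 1 else k u) ≤ n
          omega)
        (by
          intro u hu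
          by_cases huu : u = u1
          · subst huu
            simp only [if_true] at hu ⊢
            have h1 := hAc u
            have h2 := hAle1
            split_ifs at h1 ⊢ <;> omega
          · simp only [huu, if_false] at hu ⊢
            have h1 := hAc u
            have h2 := hAle u huu
            split_ifs at h1 ⊢ <;> omega)
      have h2i : m2 i = m1 i := h2out i (by simp)
      obtain ⟨m3, h3inv, h3out, h3mu⟩ := add_edge L m2 h2inv i hi x u1 hxu1
        (by rw [h2i]; exact hm1x i hi) (by rw [h2i]; exact hm1u1)
      refine ⟨m3, h3inv, ?_, ?_⟩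
      · intro c hc
        have hci : c ≠ i := fun h => hc (h ▸ hi)
        rw [h3out c hci, h2out c (fun h => hc (mem_of_mem_erase h)), h1out c hc]
      · intro u w huw
        rw [h3mu u w huw, mu_erase L m2 i hi, h2mu u w huw, h2i, ← h1mu u w,
          mu_erase L m1 i hi]
        have key : (if u = x then (if w = u1 then k w - 1 else k w) else
              if w = x then (if u = u1 then k u - 1 else k u) else 0) +
            (if (u = x ∧ w = u1) ∨ (u = u1 ∧ w = x) then 1 else 0) =
            (if u = x then k w else if w = x then k u else 0) := by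
          by_cases hux : u = x
          · subst hux
            have hwu : w ≠ u := huw.symm
            by_cases hw1 : w = u1
            · subst hw1
              simp only [if_true, true_and, true_or]
              omega
            · simp [hw1, hwu]
          · by_cases hwx : w = x
            · subst hwx
              by_cases hu1' : u = u1
              · subst hu1'
                simp only [hux, if_true, if_false, true_and, or_true]
                omega
              · simp [hu1', hux]
            · simp [hux, hwx]
        omega

end TAV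

theorem t_AV : S_AV := by
  intro W _ _ x L m hm hx k u0 hkx hk hmiss
  exact TAV.add_vertex x L.card L rfl m hm hx k u0 hkx hk hmiss

end Pool.Agent.W143.WP
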