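import Pool.Agent.W143.WP.Stm

set_option autoImplicit false
open Finset

namespace Pool.Agent.W143.WP

theorem t_CI : S_CI := by
  intro α _ _ R hR hlt
  obtain ⟨h, rfl⟩ := hR
  set n := Fintype.card α with hn
  have hn0 : NeZero n := ⟨by omega⟩
  have e : α ≃ ZMod n := Fintype.equivOfCardEq (by rw [ZMod.card])
  set S1 : Finset (ZMod n) := (Icc 1 h).image (fun i : ℕ => (i : ZMod n)) with hS1
  set S2 : Finset (ZMod n) := (Icc 1 h).image (fun i : ℕ => -(i : ZMod n)) with hS2
  have hinj : ∀ i ∈ Icc 1 h, ∀ j ∈ Icc 1 h, (i : ZMod n) = (j : ZMod n) → i = j := by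
    intro i hi j hj hij
    rw [mem_Icc] at hi hj
    have := (ZMod.natCast_eq_natCast_iff' i j n).mp hij
    rwa [Nat.mod_eq_of_lt (by omega), Nat.mod_eq_of_lt (by omega)] at this
  have hsum : ∀ i ∈ Icc 1 h, ∀ j ∈ Icc 1 h, (i : ZMod n) ≠ -(j : ZMod n) := by
    intro i hi j hj hij
    rw [mem_Icc] at hi hj
    have h1 : ((i + j : ℕ) : ZMod n) = 0 := by
      rw [Nat.cast_add, hij, neg_add_cancel]
    have h2 := (ZMod.natCast_eq_zero_iff _ _).mp h1
    have h3 := Nat.le_of_dvd (by omega) h2
    omega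
  have hdisj : Disjoint S1 S2 := by
    rw [disjoint_left]
    intro x hx hx'
    obtain ⟨i, hi, rfl⟩ := mem_image.mp hx
    obtain ⟨j, hj, hij⟩ := mem_image.mp hx'
    exact hsum i hi j hj hij.symm
  have hc1 : S1.card = h := by
    rw [hS1, card_image_of_injOn, Nat.card_Icc]
    · omega
    · intro i hi j hj hij
      exact hinj i hi j hj hij
  have hc2 : S2.card = h := by
    rw [hS2, card_image_of_injOn, Nat.card_Icc]
    · omega
    · intro i hi j hj hij
      exact hinj i hi j hj (neg_injective hij)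
  have hcard : (S1 ∪ S2).card = h + h := by rw [card_union_of_disjoint hdisj, hc1, hc2]
  have hneg : ∀ x ∈ S1 ∪ S2, -x ∈ S1 ∪ S2 := by
    intro x hx
    rcases mem_union.mp hx with hx | hx
    · obtain ⟨i, hi, rfl⟩ := mem_image.mp hx
      exact mem_union_right _ (mem_image.mpr ⟨i, hi, rfl⟩)
    · obtain ⟨i, hi, rfl⟩ := mem_image.mp hx
      exact mem_union_left _ (mem_image.mpr ⟨i, hi, (neg_neg _).symm⟩)
  have h0 : (0 : ZMod n) ∉ S1 ∪ S2 := by
    intro hx
    have key : ∀ i ∈ Icc 1 h, (i : ZMod n) ≠ 0 := by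
      intro i hi h0
      rw [mem_Icc] at hi
      have h2 := (ZMod.natCast_eq_zero_iff _ _).mp h0
      have h3 := Nat.le_of_dvd (by omega) h2
      omega
    rcases mem_union.mp hx with hx | hx
    · obtain ⟨i, hi, h1⟩ := mem_image.mp hx
      exact key i hi h1
    · obtain ⟨i, hi, h1⟩ := mem_image.mp hx
      exact key i hi (neg_eq_zero.mp h1)
  refine ⟨fun a => univ.filter (fun b => e b - e a ∈ S1 ∪ S2), ?_, ?_, ?_⟩
  · intro a b hb
    simp only [mem_filter, mem_univ, true_and] at hb ⊢
    have := hneg _ hb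
    rwa [neg_sub] at this
  · intro a ha
    simp only [mem_filter, mem_univ, true_and, sub_self] at ha
    exact h0 ha
  · intro a
    rw [← hcard]
    apply card_bij (fun b _ => e b - e a)
    · intro b hb
      exact (mem_filter.mp hb).2
    · intro b _ b' _ hbb
      exact e.injective (sub_left_injective hbb)
    · intro x hx
      refine ⟨e.symm (x + e a), ?_, by simp⟩
      rw [mem_filter]
      exact ⟨mem_univ _, by simpa using hx⟩

end Pool.Agent.W143.WP
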