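import Pool.Agent.W143.WP.Stm

/-! The edge colouring of the product from the arrays. -/

set_option autoImplicit false
open Finset

namespace Pool.Agent.W143.WP

namespace TCOL

open Classical in
/-- the colour of the edge `{p, q}` -/
noncomputable def f {V W : Type} (G' : SimpleGraph W) (e : V → ℕ) {Δ : ℕ} (l : Sym2 V → Fin Δ)
    (c : W → W → ℕ) (A : ℕ → W → W → ℕ) (p q : V × W) : ℕ :=
  if p.1 = q.1 then (if G'.Adj p.2 q.2 then c p.2 q.2 else 0)
  else if e p.1 < e q.1 then A (l s(p.1, q.1)).val p.2 q.2 else A (l s(p.1, q.1)).val q.2 p.2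

theorem f_same {V W : Type} {G' : SimpleGraph W} {e : V → ℕ} {Δ : ℕ} {l : Sym2 V → Fin Δ}
    {c : W → W → ℕ} {A : ℕ → W → W → ℕ} {p q : V × W} (h : p.1 = q.1) (ha : G'.Adj p.2 q.2) :
    f G' e l c A p q = c p.2 q.2 := by
  unfold f
  rw [if_pos h, if_pos ha]

theorem f_diff {V W : Type} {G' : SimpleGraph W} {e : V → ℕ} {Δ : ℕ} {l : Sym2 V → Fin Δ}
    {c : W → W → ℕ} {A : ℕ → W → W → ℕ} {p q : V × W} (h : p.1 ≠ q.1) :
    (e p.1 < e q.1 ∧ f G' e l c A p q = A (l s(p.1, q.1)).val p.2 q.2) ∨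
      (¬ e p.1 < e q.1 ∧ f G' e l c A p q = A (l s(p.1, q.1)).val q.2 p.2) := by
  unfold f
  rw [if_neg h]
  by_cases h1 : e p.1 < e q.1
  · rw [if_pos h1]
    exact Or.inl ⟨h1, rfl⟩
  · rw [if_neg h1]
    exact Or.inr ⟨h1, rfl⟩

end TCOL

open TCOL in
theorem t_COL : S_COL := by
  classical
  intro V W _ _ G G' r hr H hadj Δ D hD l hl c A hArr
  obtain ⟨a1, a2, a3, a4, a5, a6, a7⟩ := hArr
  obtain ⟨e, he⟩ : ∃ e : V → ℕ, Function.Injective e :=
    ⟨fun v => (Fintype.equivFin V v).val, fun a b h =>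
      (Fintype.equivFin V).injective (Fin.val_injective h)⟩
  set F := f G' e l c A with hF
  have hsymm : ∀ p q, F p q = F q p := by
    intro p q
    by_cases h : p.1 = q.1
    · by_cases ha : G'.Adj p.2 q.2
      · rw [hF, f_same h ha, f_same h.symm ha.symm]
        exact (a1 _ (Set.mem_univ _) _ ha).2
      · have ha' : ¬ G'.Adj q.2 p.2 := fun h => ha h.symm
        rw [hF]
        unfold f
        rw [if_pos h, if_neg ha, if_pos h.symm, if_neg ha']
    · have hne : e p.1 ≠ e q.1 := fun h' => h (he h')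
      have hs : s(q.1, p.1) = s(p.1, q.1) := Sym2.eq_swap
      rcases f_diff (G' := G') (e := e) (l := l) (c := c) (A := A) h with ⟨h1, h2⟩ | ⟨h1, h2⟩ <;>
        rcases f_diff (G' := G') (e := e) (l := l) (c := c) (A := A) (Ne.symm h) with
          ⟨h3, h4⟩ | ⟨h3, h4⟩
      · omega
      · rw [hF, h2, h4, hs]
      · rw [hF, h2, h4, hs]
      · omega
  have hlt : ∀ p q, H.Adj p q → F p q < D := by
    intro p q h
    rcases (hadj p q).1 h with ⟨h1, h2⟩ | ⟨h1, h2⟩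
    · rw [hF, f_same h1 h2]
      exact (a1 _ (Set.mem_univ _) _ h2).1
    · rcases f_diff (G' := G') (e := e) (l := l) (c := c) (A := A) h1.ne with ⟨-, h3⟩ | ⟨-, h3⟩
      · rw [hF, h3]
        exact a3 _ (l _).2 _ (Set.mem_univ _) _ h2
      · rw [hF, h3]
        exact a3 _ (l _).2 _ (Set.mem_univ _) _ (hr.symm h2)
  have hprop : ∀ p q q', q ≠ q' → H.Adj p q → H.Adj p q' → F p q ≠ F p q' := by
    intro p q q' hne h h'
    rcases (hadj p q).1 h with ⟨h1, h2⟩ | ⟨h1, h2⟩ <;>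
      rcases (hadj p q').1 h' with ⟨h3, h4⟩ | ⟨h3, h4⟩
    · rw [hF, f_same h1 h2, f_same h3 h4]
      intro heq
      have := a2 _ (Set.mem_univ _) _ _ h2 h4 heq
      exact hne (Prod.ext (h1.symm.trans h3) this)
    · rw [hF, f_same h1 h2]
      rcases f_diff (G' := G') (e := e) (l := l) (c := c) (A := A) h3.ne with ⟨-, h5⟩ | ⟨-, h5⟩
      · rw [h5]
        exact (a7 _ (l _).2 _ (Set.mem_univ _) _ _ h2 h4).1
      · rw [h5]
        exact (a7 _ (l _).2 _ (Set.mem_univ _) _ _ h2 h4).2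
    · rw [hF, f_same h3 h4]
      rcases f_diff (G' := G') (e := e) (l := l) (c := c) (A := A) h1.ne with ⟨-, h5⟩ | ⟨-, h5⟩
      · rw [h5]
        exact ((a7 _ (l _).2 _ (Set.mem_univ _) _ _ h4 h2).1).symm
      · rw [h5]
        exact ((a7 _ (l _).2 _ (Set.mem_univ _) _ _ h4 h2).2).symm
    · by_cases hy : q.1 = q'.1
      · have hw : q.2 ≠ q'.2 := fun hw => hne (Prod.ext hy hw)
        rcases f_diff (G' := G') (e := e) (l := l) (c := c) (A := A) h1.ne with ⟨h5, h6⟩ | ⟨h5, h6⟩ <;>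
          rcases f_diff (G' := G') (e := e) (l := l) (c := c) (A := A) h3.ne with
            ⟨h7, h8⟩ | ⟨h7, h8⟩
        · rw [hF, h6, h8, ← hy]
          intro heq
          exact hw (a4 _ (l _).2 _ (Set.mem_univ _) _ _ h2 h4 heq)
        · exact absurd (hy ▸ h5) h7
        · exact absurd (hy ▸ h7) h5
        · rw [hF, h6, h8, ← hy]
          intro heq
          exact hw (a5 _ (l _).2 _ (Set.mem_univ _) _ _ h2 h4 heq)
      · have hj : l s(p.1, q.1) ≠ l s(p.1, q'.1) := by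
          refine hl _ h1 _ h3 ?_ ⟨p.1, by simp, by simp⟩
          intro h
          exact hy (Sym2.congr_right.1 h)
        have hj' : (l s(p.1, q.1)).val ≠ (l s(p.1, q'.1)).val := fun h => hj (Fin.ext h)
        have k1 := a6 _ (l s(p.1, q.1)).2 _ (l s(p.1, q'.1)).2 hj' p.2 (Set.mem_univ _) _ _ h2 h4
        have k2 := a6 _ (l s(p.1, q'.1)).2 _ (l s(p.1, q.1)).2 (Ne.symm hj') p.2 (Set.mem_univ _) _ _
          h4 h2
        rcases f_diff (G' := G') (e := e) (l := l) (c := c) (A := A) h1.ne with ⟨h5, h6⟩ | ⟨h5, h6⟩ <;>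
          rcases f_diff (G' := G') (e := e) (l := l) (c := c) (A := A) h3.ne with
            ⟨h7, h8⟩ | ⟨h7, h8⟩
        · rw [hF, h6, h8]
          exact k1.1
        · rw [hF, h6, h8]
          exact k1.2.1
        · rw [hF, h6, h8]
          exact (k2.2.1).symm
        · rw [hF, h6, h8]
          exact k1.2.2
  refine ⟨Sym2.lift ⟨fun p q => (⟨F p q % D, Nat.mod_lt _ hD⟩ : Fin D), fun p q =>
    Fin.ext (congrArg (fun t => t % D) (hsymm p q))⟩, ?_⟩
  intro e1 he1 e2 he2 hne hv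
  obtain ⟨p, hp1, hp2⟩ := hv
  obtain ⟨q, rfl⟩ := Sym2.mem_iff_exists.1 hp1
  obtain ⟨q', rfl⟩ := Sym2.mem_iff_exists.1 hp2
  rw [SimpleGraph.mem_edgeSet] at he1 he2
  have hqq : q ≠ q' := fun h => hne (by rw [h])
  have h1 := hprop p q q' hqq he1 he2
  simp only [Sym2.lift_mk, ne_eq, Fin.mk.injEq]
  rw [Nat.mod_eq_of_lt (hlt p q he1), Nat.mod_eq_of_lt (hlt p q' he2)]
  exact h1

end Pool.Agent.W143.WP
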