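import Mathlib
import Pool.Agent.W143.WP.Stm

set_option autoImplicit false
open Finset
open Pool.Agent.MPd14d18 (mu mu_eq_card)

namespace Pool.Agent.W143.WP

namespace TINS

theorem sum_mu {W : Type} [Fintype W] [DecidableEq W] (L : Finset ℕ) (m : ℕ → W → W) (u : W) :
    ∑ w, mu L m u w = L.card := by
  unfold mu
  rw [Finset.sum_comm]
  simp

theorem missing_add {W : Type} [Fintype W] [DecidableEq W] (L : Finset ℕ) (m : ℕ → W → W) (u : W) :
    (L.filter (fun c => m c u = u)).card + ∑ w ∈ univ.erase u, mu L m u w = L.card := by
  rw [← mu_eq_card, Finset.add_sum_erase univ (fun w => mu L m u w) (mem_univ u), sum_mu]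

end TINS

open TINS in
theorem t_INS : S_AV → S_INS := by
  intro hAV W _ _ t ht N δ p hT hex
  have key : ∀ (n : ℕ) (Y : Finset W), Y.card = n → (∀ u ∈ Y, ∀ w, w ∉ Y → δ w ≤ δ u) →
      ∃ m : ℕ → W → W, (∀ c v, m c (m c v) = v) ∧
        ∀ u w, u ≠ w → mu (range N) m u w = if u ∈ Y ∧ w ∈ Y then t u w else 0 := by
    intro n
    induction n with
    | zero =>
      intro Y hY _
      rw [Finset.card_eq_zero] at hY
      subst hY
      refine ⟨fun _ v => v, fun _ _ => rfl, fun u w huw => ?_⟩
      simp [mu, huw]
    | succ n ih =>
      intro Y hY hup
      have hne : Y.Nonempty := by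
        rw [← Finset.card_pos]; omega
      obtain ⟨x, hxY, hxmin⟩ := Finset.exists_min_image Y δ hne
      have hcard : (Y.erase x).card = n := by
        rw [Finset.card_erase_of_mem hxY]; omega
      obtain ⟨m, hm, hmu⟩ := ih (Y.erase x) hcard (by
        intro u hu w hw
        rw [mem_erase] at hu
        by_cases hwx : w = x
        · rw [hwx]; exact hxmin u hu.2
        · exact hup u hu.2 w (fun h => hw (mem_erase.mpr ⟨hwx, h⟩)))
      have hxfix : ∀ c ∈ range N, m c x = x := by
        intro c hc
        by_contra hne'
        have h1 := hmu x (m c x) (fun h => hne' h.symm)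
        rw [if_neg (by simp)] at h1
        rw [mu_eq_card, Finset.card_eq_zero] at h1
        have h2 : c ∈ (range N).filter (fun c' => m c' x = m c x) := mem_filter.mpr ⟨hc, rfl⟩
        rw [h1] at h2
        exact absurd h2 (Finset.notMem_empty c)
      obtain ⟨m', hm', -, hmu'⟩ := hAV W x (range N) m hm hxfix
        (fun u => if u ∈ Y.erase x then t x u else 0) (p x) (by simp)
        (by
          rw [card_range]
          refine le_trans ?_ (hT x)
          rw [← Finset.sum_erase (a := x) univ (by simp)]
          refine Finset.sum_le_sum fun u _ => ?_
          split_ifs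
          · exact le_rfl
          · exact Nat.zero_le _)
        (by
          intro u hu
          have huY : u ∈ Y.erase x := by
            by_contra h
            simp only [if_neg h] at hu
            exact absurd hu (lt_irrefl 0)
          simp only [if_pos huY] at hu ⊢
          have hux : u ≠ x := (mem_erase.mp huY).1
          have huY' : u ∈ Y := (mem_erase.mp huY).2
          have h1 := missing_add (range N) m u
          rw [card_range] at h1
          have h2 : ∑ w ∈ univ.erase u, mu (range N) m u w =
              ∑ w ∈ univ.erase u, (if w ∈ Y.erase x then t u w else 0) := by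
            refine Finset.sum_congr rfl fun w hw => ?_
            rw [mem_erase] at hw
            rw [hmu u w hw.1.symm]
            simp only [huY, true_and]
          rw [h2] at h1
          have hsplit : ∑ w ∈ univ.erase u, t u w =
              t u x + ∑ w ∈ (univ.erase u).erase x, t u w :=
            (Finset.add_sum_erase _ _ (mem_erase.mpr ⟨hux.symm, mem_univ x⟩)).symm
          have hsplit' : ∑ w ∈ univ.erase u, (if w ∈ Y.erase x then t u w else 0) =
              ∑ w ∈ (univ.erase u).erase x, (if w ∈ Y.erase x then t u w else 0) := by
            rw [← Finset.add_sum_erase _ _ (mem_erase.mpr ⟨hux.symm, mem_univ x⟩ :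
              x ∈ univ.erase u)]
            simp
          have hle : ∑ w ∈ (univ.erase u).erase x, (if w ∈ Y.erase x then t u w else 0) ≤
              ∑ w ∈ (univ.erase u).erase x, t u w := by
            refine Finset.sum_le_sum fun w _ => ?_
            split_ifs
            · exact le_rfl
            · exact Nat.zero_le _
          have htx : t u x = t x u := ht u x
          rcases hex x u hux hu (hxmin u huY') with h3 | ⟨h3, h4⟩
          · omega
          · by_cases hup0 : u = p x
            · rw [if_pos hup0]; omega
            · rw [if_neg hup0]
              rcases h4 with h4 | ⟨w, hwu, hwt, hwδ⟩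
              · exact absurd h4 hup0
              · have hwY : w ∉ Y := by
                  intro h
                  have := hxmin w h
                  omega
                have hwx : w ≠ x := by
                  rintro rfl; exact lt_irrefl _ hwδ
                have hwY' : w ∉ Y.erase x := fun h => hwY (mem_of_mem_erase h)
                have hlt : ∑ w ∈ (univ.erase u).erase x, (if w ∈ Y.erase x then t u w else 0) <
                    ∑ w ∈ (univ.erase u).erase x, t u w := by
                  refine Finset.sum_lt_sum (fun w _ => ?_) ⟨w, ?_, ?_⟩
                  · split_ifs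
                    · exact le_rfl
                    · exact Nat.zero_le _
                  · exact mem_erase.mpr ⟨hwx, mem_erase.mpr ⟨hwu, mem_univ w⟩⟩
                  · rw [if_neg hwY']; exact hwt
                omega)
      refine ⟨m', hm', fun u w huw => ?_⟩
      rw [hmu' u w huw, hmu u w huw]
      by_cases hux : u = x
      · subst hux
        have hwx : w ≠ u := huw.symm
        simp [hxY, hwx]
      · by_cases hwx : w = x
        · subst hwx
          simp only [hux, if_false, if_true, mem_erase, ne_eq, not_true_eq_false, false_and,
            and_false, zero_add, not_false_eq_true, true_and, hxY, and_true]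
          by_cases huY : u ∈ Y
          · simp [huY, ht u w]
          · simp [huY]
        · simp [hux, hwx]
  obtain ⟨m, hm, hmu⟩ := key _ univ rfl (fun u _ w hw => absurd (mem_univ w) hw)
  exact ⟨m, hm, fun u w huw => by rw [hmu u w huw]; simp⟩

end Pool.Agent.W143.WP
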