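import Mathlib
import Pool.Agent.W143.WP.T_INS

set_option autoImplicit false
open Finset
open Pool.Agent.MPd14d18 (mu mu_eq_card)

namespace Pool.Agent.W143.WP

namespace TASM

theorem exists_inj (S T : Finset ℕ) (h : S.card ≤ T.card) :
    ∃ f : ℕ → ℕ, (∀ a ∈ S, f a ∈ T) ∧ ∀ a ∈ S, ∀ b ∈ S, f a = f b → a = b := by
  classical
  obtain ⟨T', hT', hc⟩ := Finset.exists_subset_card_eq h
  let e : S ≃ T' := Finset.equivOfCardEq hc.symm
  refine ⟨fun a => if h : a ∈ S then (e ⟨a, h⟩ : ℕ) else 0, ?_, ?_⟩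
  · intro a ha
    simp only [ha, dif_pos]
    exact hT' (e ⟨a, ha⟩).2
  · intro a ha b hb hab
    simp only [ha, hb, dif_pos] at hab
    have := e.injective (Subtype.ext hab)
    exact congrArg Subtype.val this

/-- a chosen injection of `S` into `T` -/
noncomputable def phi (S T : Finset ℕ) : ℕ → ℕ :=
  if h : S.card ≤ T.card then (exists_inj S T h).choose else id

theorem phi_mem {S T : Finset ℕ} (h : S.card ≤ T.card) {a : ℕ} (ha : a ∈ S) : phi S T a ∈ T := by
  unfold phi
  rw [dif_pos h]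
  exact (exists_inj S T h).choose_spec.1 a ha

theorem phi_inj {S T : Finset ℕ} (h : S.card ≤ T.card) {a b : ℕ} (ha : a ∈ S) (hb : b ∈ S)
    (hab : phi S T a = phi S T b) : a = b := by
  unfold phi at hab
  rw [dif_pos h] at hab
  exact (exists_inj S T h).choose_spec.2 a ha b hb hab

/-- Assembly of the arrays from a family of involutions with prescribed multiplicities. -/
theorem assemble (W : Type) [Fintype W] [DecidableEq W] (G' : SimpleGraph W)
    [DecidableRel G'.Adj]
    (r : W → W → Prop) [DecidableRel r] (hr : Equivalence r) (Δ D N R : ℕ) (hNR : N + R ≤ D)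
    (X : Finset W) (hX : ∀ v ∈ X, ∀ w, G'.Adj v w ∨ r v w → w ∈ X)
    (P : W → Finset W) (hPs : ∀ v ∈ X, ∀ w ∈ P v, v ∈ P w)
    (hPi : ∀ v ∈ X, v ∉ P v)
    (top : W → W → ℕ) (htop : ∀ v ∈ X, ∀ w ∈ P v, top v w < R)
    (htr : ∀ v ∈ X, ∀ w ∈ P v, ∀ w' ∈ P v, top v w = top v w' → w = w')
    (htc : ∀ v ∈ X, ∀ w ∈ P v, ∀ w' ∈ P v, top w v = top w' v → w = w')
    (m : ℕ → W → W) (hm : ∀ c v, m c (m c v) = v)
    (hmu : ∀ u ∈ X, ∀ w ∈ X, u ≠ w → mu (range N) m u w = (if G'.Adj u w then 1 else 0) +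
      (if r u w then Δ - (if w ∈ P u ∧ 0 < Δ then 1 else 0) else 0))
    (hloop : ∀ u ∈ X, Δ ≤ mu (range N) m u u) :
    ∃ c A, Arr G' r Δ D (X : Set W) c A := by
  classical
  let C : W → W → Finset ℕ := fun u w => (range N).filter (fun c => m c u = w)
  let Sl : W → W → Finset ℕ := fun u w => (if G'.Adj u w then {Δ} else ∅) ∪
    (if r u w then (range Δ).filter (fun j => ¬ (j = 0 ∧ w ∈ P u)) else ∅)
  have hPs' : ∀ v ∈ X, ∀ w, r v w → (w ∈ P v ↔ v ∈ P w) := by
    intro v hv w hvw
    have hw : w ∈ X := hX v hv w (Or.inr hvw)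
    exact ⟨fun h => hPs v hv w h, fun h => hPs w hw v h⟩
  have hCsymm : ∀ u w, C u w = C w u := by
    intro u w
    ext c
    simp only [C, mem_filter]
    constructor
    · rintro ⟨h1, h2⟩; exact ⟨h1, by rw [← h2, hm]⟩
    · rintro ⟨h1, h2⟩; exact ⟨h1, by rw [← h2, hm]⟩
  have hrsymm : ∀ u w, r u w ↔ r w u := fun u w => ⟨fun h => hr.symm h, fun h => hr.symm h⟩
  have hSsymm : ∀ u ∈ X, ∀ w, Sl u w = Sl w u := by
    intro u hu w
    simp only [Sl]
    by_cases hrw : r u w
    · have hrw' : r w u := hr.symm hrw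
      have h1 := hPs' u hu w hrw
      simp only [if_pos hrw, if_pos hrw', h1, G'.adj_comm u w]
    · have hrw' : ¬ r w u := fun h => hrw (hr.symm h)
      simp only [if_neg hrw, if_neg hrw', G'.adj_comm u w]
  have hSΔ : ∀ u w, Δ ∈ Sl u w ↔ G'.Adj u w := by
    intro u w
    simp only [Sl, mem_union]
    by_cases h : G'.Adj u w
    · simp [h]
    · by_cases h2 : r u w
      · simp [h, h2]
      · simp [h, h2]
  have hSj : ∀ u w j, j < Δ → (j ∈ Sl u w ↔ r u w ∧ ¬ (j = 0 ∧ w ∈ P u)) := by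
    intro u w j hj
    simp only [Sl, mem_union]
    have hjΔ : j ≠ Δ := hj.ne
    by_cases h : G'.Adj u w
    · by_cases h2 : r u w
      · simp only [h, h2, if_true, mem_singleton, hjΔ, false_or, mem_filter, mem_range, hj,
          true_and]
      · simp [h, h2, hjΔ]
    · by_cases h2 : r u w
      · simp only [h, h2, if_true, if_false, notMem_empty, false_or, mem_filter, mem_range, hj,
          true_and]
      · simp [h, h2]
  have hflt : ∀ u w, ((range Δ).filter (fun j => ¬ (j = 0 ∧ w ∈ P u))).card =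
      Δ - (if w ∈ P u ∧ 0 < Δ then 1 else 0) := by
    intro u w
    by_cases hw : w ∈ P u
    · by_cases hΔ : 0 < Δ
      · have : (range Δ).filter (fun j => ¬ (j = 0 ∧ w ∈ P u)) = (range Δ).erase 0 := by
          ext j
          simp only [mem_filter, mem_range, hw, and_true, mem_erase, ne_eq]
          tauto
        rw [this, Finset.card_erase_of_mem (mem_range.mpr hΔ), card_range]
        simp [hw, hΔ]
      · have h0 : Δ = 0 := by omega
        subst h0
        simp
    · simp [hw]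
  have hScard : ∀ u w, (Sl u w).card = (if G'.Adj u w then 1 else 0) +
      (if r u w then Δ - (if w ∈ P u ∧ 0 < Δ then 1 else 0) else 0) := by
    intro u w
    simp only [Sl]
    rw [Finset.card_union_of_disjoint]
    · congr 1
      · split_ifs <;> simp
      · by_cases h2 : r u w
        · simp only [h2, if_true]
          exact hflt u w
        · simp [h2]
    · rw [Finset.disjoint_left]
      intro j hj hj'
      split_ifs at hj hj'
      · simp only [mem_singleton] at hj
        simp only [mem_filter, mem_range] at hj'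
        omega
      · simp at hj'
      · simp at hj
      · simp at hj
  have hcard : ∀ u ∈ X, ∀ w ∈ X, (Sl u w).card ≤ (C u w).card := by
    intro u hu w hw
    by_cases huw : u = w
    · subst huw
      have h1 := hloop u hu
      rw [mu_eq_card] at h1
      refine le_trans ?_ h1
      rw [hScard]
      simp [hPi u hu, hr.refl u]
    · have h1 := hmu u hu w hw huw
      rw [mu_eq_card] at h1
      simp only [C]
      rw [h1, hScard]
  let F : W → W → ℕ → ℕ := fun u w => phi (Sl u w) (C u w)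
  have hFsymm : ∀ u ∈ X, ∀ w, F u w = F w u := by
    intro u hu w
    simp only [F]
    rw [hSsymm u hu w, hCsymm u w]
  have hSX : ∀ u ∈ X, ∀ w j, j ∈ Sl u w → w ∈ X := by
    intro u hu w j hj
    apply hX u hu w
    simp only [Sl, mem_union] at hj
    rcases hj with hj | hj
    · split_ifs at hj with h
      · exact Or.inl h
      · simp at hj
    · split_ifs at hj with h
      · exact Or.inr h
      · simp at hj
  have hFC : ∀ u ∈ X, ∀ w j, j ∈ Sl u w → F u w j < N ∧ m (F u w j) u = w := by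
    intro u hu w j hj
    have hw : w ∈ X := hSX u hu w j hj
    have := phi_mem (hcard u hu w hw) hj
    simp only [C, mem_filter, mem_range] at this
    exact this
  have hU : ∀ v ∈ X, ∀ w w' s s', s ∈ Sl v w → s' ∈ Sl v w' → F v w s = F v w' s' →
      w = w' ∧ s = s' := by
    intro v hv w w' s s' hs hs' heq
    have h1 := hFC v hv w s hs
    have h2 := hFC v hv w' s' hs'
    have hww : w = w' := by rw [← h1.2, ← h2.2, heq]
    refine ⟨hww, ?_⟩
    subst hww
    exact phi_inj (hcard v hv w (hSX v hv w s hs)) hs hs' heq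
  let A : ℕ → W → W → ℕ := fun j u w => if j = 0 ∧ w ∈ P u then N + top u w else F u w j
  -- description of rows
  have hArow : ∀ j < Δ, ∀ v ∈ X, ∀ w, r v w →
      (j = 0 ∧ w ∈ P v ∧ A j v w = N + top v w) ∨
      (¬ (j = 0 ∧ w ∈ P v) ∧ j ∈ Sl v w ∧ A j v w = F v w j) := by
    intro j hj v hv w hw
    by_cases h : j = 0 ∧ w ∈ P v
    · left; exact ⟨h.1, h.2, if_pos h⟩
    · right; exact ⟨h, (hSj v w j hj).mpr ⟨hw, h⟩, if_neg h⟩
  have hAcol : ∀ j < Δ, ∀ v ∈ X, ∀ w, r v w →
      (j = 0 ∧ w ∈ P v ∧ A j w v = N + top w v) ∨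
      (¬ (j = 0 ∧ w ∈ P v) ∧ j ∈ Sl v w ∧ A j w v = F v w j) := by
    intro j hj v hv w hw
    have hwX : w ∈ X := hX v hv w (Or.inr hw)
    have hiff := hPs' v hv w hw
    by_cases h : j = 0 ∧ w ∈ P v
    · left; exact ⟨h.1, h.2, if_pos ⟨h.1, hiff.mp h.2⟩⟩
    · right
      have h' : ¬ (j = 0 ∧ v ∈ P w) := by rw [← hiff]; exact h
      refine ⟨h, (hSj v w j hj).mpr ⟨hw, h⟩, ?_⟩
      rw [show A j w v = F w v j from if_neg h', hFsymm v hv w]
  refine ⟨fun u w => F u w Δ, A, ?_, ?_, ?_, ?_, ?_, ?_, ?_⟩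
  · intro v hv w hvw
    have hv' : v ∈ X := hv
    refine ⟨?_, ?_⟩
    · have := (hFC v hv' w Δ ((hSΔ v w).mpr hvw)).1
      show F v w Δ < D
      omega
    · show F v w Δ = F w v Δ
      rw [hFsymm v hv' w]
  · intro v hv w w' hw hw' heq
    exact (hU v hv w w' Δ Δ ((hSΔ v w).mpr hw) ((hSΔ v w').mpr hw') heq).1
  · intro j hj v hv w hw
    rcases hArow j hj v hv w hw with ⟨-, h2, h3⟩ | ⟨-, h2, h3⟩
    · rw [h3]; have := htop v hv w h2; omega
    · rw [h3]; have := (hFC v hv w j h2).1; omega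
  · intro j hj v hv w w' hw hw' heq
    rcases hArow j hj v hv w hw with ⟨a1, a2, a3⟩ | ⟨a1, a2, a3⟩ <;>
      rcases hArow j hj v hv w' hw' with ⟨b1, b2, b3⟩ | ⟨b1, b2, b3⟩
    · rw [a3, b3] at heq
      exact htr v hv w a2 w' b2 (by omega)
    · rw [a3, b3] at heq
      have := (hFC v hv w' j b2).1; omega
    · rw [a3, b3] at heq
      have := (hFC v hv w j a2).1; omega
    · rw [a3, b3] at heq
      exact (hU v hv w w' j j a2 b2 heq).1
  · intro j hj v hv w w' hw hw' heq
    rcases hAcol j hj v hv w hw with ⟨a1, a2, a3⟩ | ⟨a1, a2, a3⟩ <;>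
      rcases hAcol j hj v hv w' hw' with ⟨b1, b2, b3⟩ | ⟨b1, b2, b3⟩
    · rw [a3, b3] at heq
      exact htc v hv w a2 w' b2 (by omega)
    · rw [a3, b3] at heq
      have := (hFC v hv w' j b2).1; omega
    · rw [a3, b3] at heq
      have := (hFC v hv w j a2).1; omega
    · rw [a3, b3] at heq
      exact (hU v hv w w' j j a2 b2 heq).1
  · intro j hj j' hj' hjj v hv w w' hw hw'
    refine ⟨?_, ?_, ?_⟩
    · intro heq
      rcases hArow j hj v hv w hw with ⟨a1, a2, a3⟩ | ⟨a1, a2, a3⟩ <;>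
        rcases hArow j' hj' v hv w' hw' with ⟨b1, b2, b3⟩ | ⟨b1, b2, b3⟩
      · omega
      · rw [a3, b3] at heq
        have := (hFC v hv w' j' b2).1; omega
      · rw [a3, b3] at heq
        have := (hFC v hv w j a2).1; omega
      · rw [a3, b3] at heq
        exact hjj (hU v hv w w' j j' a2 b2 heq).2
    · intro heq
      rcases hArow j hj v hv w hw with ⟨a1, a2, a3⟩ | ⟨a1, a2, a3⟩ <;>
        rcases hAcol j' hj' v hv w' hw' with ⟨b1, b2, b3⟩ | ⟨b1, b2, b3⟩
      · omega
      · rw [a3, b3] at heq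
        have := (hFC v hv w' j' b2).1; omega
      · rw [a3, b3] at heq
        have := (hFC v hv w j a2).1; omega
      · rw [a3, b3] at heq
        exact hjj (hU v hv w w' j j' a2 b2 heq).2
    · intro heq
      rcases hAcol j hj v hv w hw with ⟨a1, a2, a3⟩ | ⟨a1, a2, a3⟩ <;>
        rcases hAcol j' hj' v hv w' hw' with ⟨b1, b2, b3⟩ | ⟨b1, b2, b3⟩
      · omega
      · rw [a3, b3] at heq
        have := (hFC v hv w' j' b2).1; omega
      · rw [a3, b3] at heq
        have := (hFC v hv w j a2).1; omega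
      · rw [a3, b3] at heq
        exact hjj (hU v hv w w' j j' a2 b2 heq).2
  · intro j hj v hv w w' hw hw'
    have hΔw : Δ ∈ Sl v w := (hSΔ v w).mpr hw
    have hlt := (hFC v hv w Δ hΔw).1
    refine ⟨?_, ?_⟩
    · intro heq
      rcases hArow j hj v hv w' hw' with ⟨b1, b2, b3⟩ | ⟨b1, b2, b3⟩
      · rw [b3] at heq; have heq' : F v w Δ = N + top v w' := heq; omega
      · rw [b3] at heq
        exact hj.ne' (hU v hv w w' Δ j hΔw b2 heq).2
    · intro heq
      rcases hAcol j hj v hv w' hw' with ⟨b1, b2, b3⟩ | ⟨b1, b2, b3⟩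
      · rw [b3] at heq; have heq' : F v w Δ = N + top w' v := heq; omega
      · rw [b3] at heq
        exact hj.ne' (hU v hv w w' Δ j hΔw b2 heq).2

end TASM

end Pool.Agent.W143.WP
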