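import Mathlib
import Pool.Agent.W143.WP.T_ASM

set_option autoImplicit false
open Finset
open Pool.Agent.MPd14d18 (mu mu_eq_card)

namespace Pool.Agent.W143.WP

namespace TCORE

/-- Top colours: König on the component. -/
theorem top_exists (hKO : S_KO) (W : Type) [Fintype W] [DecidableEq W] (X : Finset W)
    (P : W → Finset W) (R : ℕ) (hPX : ∀ v ∈ X, ∀ w ∈ P v, w ∈ X)
    (hPs : ∀ v ∈ X, ∀ w ∈ P v, v ∈ P w) (hPR : ∀ v ∈ X, (P v).card = R) :
    ∃ top : W → W → ℕ, (∀ v ∈ X, ∀ w ∈ P v, top v w < R) ∧
      (∀ v ∈ X, ∀ w ∈ P v, ∀ w' ∈ P v, top v w = top v w' → w = w') ∧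
      (∀ v ∈ X, ∀ w ∈ P v, ∀ w' ∈ P v, top w v = top w' v → w = w') := by
  classical
  let N : X → Finset X := fun a => (P a).subtype (· ∈ X)
  have hN : ∀ a b : X, b ∈ N a ↔ (b : W) ∈ P a := by
    intro a b
    simp [N, Finset.mem_subtype]
  obtain ⟨f, h1, h2, h3⟩ := hKO X N R (by
      intro a b hb
      rw [hN] at hb ⊢
      exact hPs a a.2 b hb) (by
      intro a
      rw [← hPR a a.2]
      rw [Finset.card_subtype]
      congr 1
      apply Finset.filter_true_of_mem
      intro w hw
      exact hPX a a.2 w hw)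
  refine ⟨fun v w => if h : v ∈ X ∧ w ∈ X then f ⟨v, h.1⟩ ⟨w, h.2⟩ else 0, ?_, ?_, ?_⟩
  · intro v hv w hw
    have hwX := hPX v hv w hw
    simp only [hv, hwX, and_self, dif_pos]
    exact h1 _ _ ((hN ⟨v, hv⟩ ⟨w, hwX⟩).mpr hw)
  · intro v hv w hw w' hw' heq
    have hwX := hPX v hv w hw
    have hwX' := hPX v hv w' hw'
    simp only [hv, hwX, hwX', and_self, dif_pos] at heq
    have := h2 ⟨v, hv⟩ ⟨w, hwX⟩ ((hN _ _).mpr hw) ⟨w', hwX'⟩ ((hN _ _).mpr hw') heq
    exact congrArg Subtype.val this
  · intro v hv w hw w' hw' heq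
    have hwX := hPX v hv w hw
    have hwX' := hPX v hv w' hw'
    simp only [hv, hwX, hwX', and_self, dif_pos] at heq
    have := h3 ⟨v, hv⟩ ⟨w, hwX⟩ ((hN _ _).mpr hw) ⟨w', hwX'⟩ ((hN _ _).mpr hw') heq
    exact congrArg Subtype.val this

theorem core (hINS : S_INS) (hKO : S_KO) (hDEP : S_DEP) (W : Type) [Fintype W] [DecidableEq W]
    (G' : SimpleGraph W) [DecidableRel G'.Adj] (r : W → W → Prop) [DecidableRel r]
    (hr : Equivalence r)
    (heq : ∀ v w u, r v w → G'.Adj v u → ∃ u', r u u' ∧ G'.Adj w u')
    (hdeg : ∀ v w, r v w → (univ.filter (fun a => G'.Adj v a)).card =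
      (univ.filter (fun a => G'.Adj w a)).card)
    (Δ D : ℕ) (hΔ : 0 < Δ)
    (hD : ∀ v, Δ * (univ.filter (fun a => r v a)).card +
      (univ.filter (fun a => G'.Adj v a)).card ≤ D)
    (X : Finset W) (hX : ∀ v ∈ X, ∀ w, G'.Adj v w ∨ r v w → w ∈ X)
    (hconn : ∀ S : Finset W, S ⊆ X → S.Nonempty →
      (∀ v ∈ S, ∀ w, G'.Adj v w ∨ r v w → w ∈ S) → S = X)
    (R : ℕ) (P : W → Finset W) (hPc : ∀ v ∈ X, ∀ w ∈ P v, r v w)
    (hPs : ∀ v ∈ X, ∀ w ∈ P v, v ∈ P w) (hPi : ∀ v ∈ X, v ∉ P v)
    (hPR : ∀ v ∈ X, (P v).card = R)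
    (hRlt : ∀ v ∈ X, R < (univ.filter (fun a => r v a)).card)
    (Z : Finset W) (hZX : Z ⊆ X) (hZ : Z.Nonempty) (hZr : ∀ v ∈ Z, ∀ w, r v w → w ∈ Z)
    (hZ2 : ∀ x ∈ Z, Δ * (univ.filter (fun a => r x a)).card +
      (univ.filter (fun a => G'.Adj x a)).card = D →
      (univ.filter (fun u => G'.Adj x u ∧ r x u ∧ u ∉ P x)).card ≤ 1) :
    ∃ c A, Arr G' r Δ D (X : Set W) c A := by
  classical
  obtain ⟨top, htop, htr, htc⟩ := top_exists hKO W X P R
    (fun v hv w hw => hX v hv w (Or.inr (hPc v hv w hw))) hPs hPR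
  obtain ⟨δ, hδ0, hδr, hδ1⟩ := hDEP W G' r hr heq X Z hX hconn hZX hZ hZr
  let a : W → W → ℕ := fun u w => (if G'.Adj u w then 1 else 0) +
      (if r u w then Δ - (if w ∈ P u ∧ 0 < Δ then 1 else 0) else 0)
  let t : W → W → ℕ := fun u w => if u ∈ X ∧ w ∈ X then a u w else 0
  have htX : ∀ u ∈ X, ∀ w ∈ X, t u w = a u w := fun u hu w hw => if_pos ⟨hu, hw⟩
  have htsymm : ∀ u w, t u w = t w u := by
    intro u w
    by_cases h : u ∈ X ∧ w ∈ X
    · rw [htX u h.1 w h.2, htX w h.2 u h.1]
      simp only [a]
      have h1 : r u w ↔ r w u := ⟨fun h => hr.symm h, fun h => hr.symm h⟩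
      have h2 : w ∈ P u ↔ u ∈ P w := ⟨fun h' => hPs u h.1 w h', fun h' => hPs w h.2 u h'⟩
      simp only [G'.adj_comm u w, h1, h2]
    · have h' : ¬ (w ∈ X ∧ u ∈ X) := fun h2 => h ⟨h2.2, h2.1⟩
      simp only [t, if_neg h, if_neg h']
  -- the total degree
  have hTsum : ∀ u ∈ X, ∑ w ∈ univ.erase u, t u w + R + Δ =
      Δ * (univ.filter (fun a => r u a)).card + (univ.filter (fun a => G'.Adj u a)).card := by
    intro u hu
    have e1 : ∀ w ∈ univ.erase u, t u w + (if w ∈ P u then 1 else 0) =
        (if G'.Adj u w then 1 else 0) + (if r u w then Δ else 0) := by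
      intro w _
      by_cases hw : w ∈ X
      · rw [htX u hu w hw]
        simp only [a]
        by_cases hP : w ∈ P u
        · have := hPc u hu w hP
          simp only [hP, this, if_true, hΔ, and_self]
          omega
        · simp only [hP, if_false, false_and, Nat.sub_zero]
          omega
      · have h1 : ¬ G'.Adj u w := fun h => hw (hX u hu w (Or.inl h))
        have h2 : ¬ r u w := fun h => hw (hX u hu w (Or.inr h))
        have h3 : w ∉ P u := fun h => h2 (hPc u hu w h)
        simp [t, hw, h1, h2, h3]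
    have e2 := Finset.sum_congr rfl e1
    rw [Finset.sum_add_distrib, Finset.sum_add_distrib] at e2
    have e3 : ∑ w ∈ univ.erase u, (if w ∈ P u then 1 else 0) = R := by
      rw [← hPR u hu, ← Finset.card_filter]
      congr 1
      ext w
      simp only [mem_filter, mem_erase, mem_univ, and_true]
      constructor
      · exact fun h => h.2
      · intro h; exact ⟨fun h' => hPi u hu (h' ▸ h), h⟩
    have e4 : ∑ w ∈ univ.erase u, (if G'.Adj u w then 1 else 0) =
        (univ.filter (fun a => G'.Adj u a)).card := by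
      rw [← Finset.card_filter]
      congr 1
      ext w
      simp only [mem_filter, mem_erase, mem_univ, and_true, true_and]
      constructor
      · exact fun h => h.2
      · intro h; exact ⟨fun h' => G'.loopless.irrefl u (h' ▸ h), h⟩
    have e5 : ∑ w ∈ univ.erase u, (if r u w then Δ else 0) + Δ =
        Δ * (univ.filter (fun a => r u a)).card := by
      have h1 : ∑ w ∈ univ, (if r u w then Δ else 0) =
          Δ + ∑ w ∈ univ.erase u, (if r u w then Δ else 0) := by
        rw [← Finset.add_sum_erase univ _ (mem_univ u)]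
        simp [hr.refl u]
      have h2 : ∑ w ∈ univ, (if r u w then Δ else 0) =
          (univ.filter (fun a => r u a)).card * Δ := by
        rw [← Finset.sum_filter, Finset.sum_const, smul_eq_mul]
      rw [Nat.mul_comm, ← h2, h1, Nat.add_comm]
    rw [e3, e4] at e2
    omega
  have hRD : ∀ v ∈ X, R + Δ ≤ D := by
    intro v hv
    have h1 := hTsum v hv
    have h2 := hD v
    omega
  have hT : ∀ u ∈ X, ∑ w ∈ univ.erase u, t u w + R + Δ ≤ D := by
    intro u hu
    rw [hTsum u hu]
    exact hD u
  let p : W → W := fun x =>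
    if h : (univ.filter (fun u => G'.Adj x u ∧ r x u ∧ u ∉ P x)).Nonempty then h.choose else x
  have hp : ∀ x u, (univ.filter (fun u => G'.Adj x u ∧ r x u ∧ u ∉ P x)).card ≤ 1 →
      G'.Adj x u → r x u → u ∉ P x → u = p x := by
    intro x u hc h1 h2 h3
    have hu : u ∈ univ.filter (fun u => G'.Adj x u ∧ r x u ∧ u ∉ P x) := by
      simp [h1, h2, h3]
    have hne : (univ.filter (fun u => G'.Adj x u ∧ r x u ∧ u ∉ P x)).Nonempty := ⟨u, hu⟩
    have hpx : p x = hne.choose := dif_pos hne
    rw [hpx]
    exact Finset.card_le_one.mp hc u hu _ hne.choose_spec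
  obtain ⟨m, hm, hmu⟩ := hINS W t htsymm (D - R) δ p (by
      intro x
      by_cases hx : x ∈ X
      · have := hT x hx
        omega
      · have : ∑ w ∈ univ.erase x, t x w = 0 := by
          apply Finset.sum_eq_zero
          intro w _
          simp [t, hx]
        rw [this]; exact Nat.zero_le _) (by
      intro x u hux htpos hle
      have hxu : x ∈ X ∧ u ∈ X := by
        by_contra h
        simp only [t, if_neg h] at htpos
        exact absurd htpos (lt_irrefl 0)
      obtain ⟨hx, hu⟩ := hxu
      have hTu := hT u hu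
      have hRDu := hRD u hu
      rw [htX x hx u hu]
      by_cases hcase : G'.Adj x u ∧ r x u ∧ u ∉ P x
      · obtain ⟨hadj, hrxu, hnP⟩ := hcase
        have ha : a x u = Δ + 1 := by
          simp only [a, hadj, hrxu, hnP, if_true, if_false, false_and]
          omega
        rw [ha]
        have hTu' := hTsum u hu
        have hDu := hD u
        by_cases hbad : Δ * (univ.filter (fun a => r u a)).card +
            (univ.filter (fun a => G'.Adj u a)).card = D
        · right
          refine ⟨by omega, ?_⟩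
          by_cases hδx : δ x = 0
          · left
            have hxZ : x ∈ Z := (hδ0 x hx).mp hδx
            have hcl : univ.filter (fun a => r x a) = univ.filter (fun a => r u a) := by
              ext w
              simp only [mem_filter, mem_univ, true_and]
              exact ⟨fun h => hr.trans (hr.symm hrxu) h, fun h => hr.trans hrxu h⟩
            have hbadx : Δ * (univ.filter (fun a => r x a)).card +
                (univ.filter (fun a => G'.Adj x a)).card = D := by
              rw [hcl, hdeg x u hrxu]; exact hbad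
            exact hp x u (hZ2 x hxZ hbadx) hadj hrxu hnP
          · right
            have hδu : δ u = δ x := (hδr x u hrxu).symm
            obtain ⟨w, hwX, hadjw, hlt⟩ := hδ1 u hu (by omega)
            refine ⟨w, ?_, ?_, by omega⟩
            · rintro rfl; exact lt_irrefl _ hlt
            · rw [htX u hu w hwX]
              simp only [a, hadjw, if_true]
              omega
        · left
          omega
      · left
        have ha : a x u ≤ Δ := by
          simp only [a]
          by_cases h1 : G'.Adj x u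
          · by_cases h2 : r x u
            · have h3 : u ∈ P x := by
                by_contra h3; exact hcase ⟨h1, h2, h3⟩
              simp only [h1, h2, h3, if_true, hΔ, and_self]
              omega
            · simp only [h1, h2, if_true, if_false]
              omega
          · simp only [h1, if_false]
            split_ifs <;> omega
        omega)
  refine TASM.assemble W G' r hr Δ D (D - R) R ?_ X hX P hPs hPi top htop htr htc m hm ?_ ?_
  · by_cases hXe : X.Nonempty
    · obtain ⟨v, hv⟩ := hXe
      have := hRD v hv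
      omega
    · exfalso
      obtain ⟨z, hz⟩ := hZ
      exact hXe ⟨z, hZX hz⟩
  · intro u hu w hw huw
    rw [hmu u w huw, htX u hu w hw]
  · intro u hu
    have h1 := TINS.missing_add (range (D - R)) m u
    rw [card_range] at h1
    have h2 : ∑ w ∈ univ.erase u, mu (range (D - R)) m u w = ∑ w ∈ univ.erase u, t u w := by
      refine Finset.sum_congr rfl fun w hw => ?_
      rw [mem_erase] at hw
      exact hmu u w hw.1.symm
    rw [h2] at h1
    rw [mu_eq_card]
    have := hT u hu
    omega

end TCORE

end Pool.Agent.W143.WP
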