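import Mathlib
import Pool.Agent.W143.WP.T_CORE

set_option autoImplicit false
open Finset
open Pool.Agent.MPd14d18 (mu mu_eq_card)

namespace Pool.Agent.W143.WP

namespace TCOMP

/-- extension of a neighbourhood function from a subset -/
def ext {W : Type} [DecidableEq W] (C : Finset W) (N' : C → Finset C) (a : W) : Finset W :=
  if h : a ∈ C then (N' ⟨a, h⟩).map (Function.Embedding.subtype _) else ∅

theorem mem_ext {W : Type} [DecidableEq W] (C : Finset W) (N' : C → Finset C) (a b : W) :
    b ∈ ext C N' a ↔ ∃ (ha : a ∈ C) (hb : b ∈ C), (⟨b, hb⟩ : C) ∈ N' ⟨a, ha⟩ := by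
  unfold ext
  by_cases ha : a ∈ C
  · simp only [ha, dif_pos, mem_map, Function.Embedding.subtype_apply, Subtype.exists,
      exists_and_right, exists_eq_right, exists_true_left]
  · simp [ha]

theorem card_ext {W : Type} [DecidableEq W] (C : Finset W) (N' : C → Finset C) (a : W)
    (ha : a ∈ C) : (ext C N' a).card = (N' ⟨a, ha⟩).card := by
  unfold ext
  rw [dif_pos ha, Finset.card_map]

theorem cl (hCI : S_CI) (W : Type) [DecidableEq W] (C : Finset W) (R : ℕ) (hR : Even R)
    (hRC : R < C.card) :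
    ∃ N : W → Finset W, (∀ a ∈ C, ∀ b ∈ N a, b ∈ C) ∧ (∀ a ∈ C, ∀ b ∈ N a, a ∈ N b) ∧
      (∀ a ∈ C, a ∉ N a) ∧ ∀ a ∈ C, (N a).card = R := by
  classical
  obtain ⟨N', h1, h2, h3⟩ := hCI C R hR (by rwa [Fintype.card_coe])
  refine ⟨ext C N', ?_, ?_, ?_, ?_⟩
  · intro a _ b hb
    rw [mem_ext] at hb
    exact hb.2.1
  · intro a _ b hb
    rw [mem_ext] at hb ⊢
    obtain ⟨ha, hb', h⟩ := hb
    exact ⟨hb', ha, h1 _ _ h⟩
  · intro a _ h
    rw [mem_ext] at h
    obtain ⟨ha, _, h⟩ := h
    exact h2 _ h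
  · intro a ha
    rw [card_ext C N' a ha]
    exact h3 _

theorem rt (hPR : S_PR) (W : Type) [DecidableEq W] (C : Finset W) (hC : C.Nonempty)
    (I : W → Finset W) (s : ℕ) (hI1 : ∀ a ∈ C, ∀ b ∈ I a, b ∈ C)
    (hI2 : ∀ a ∈ C, ∀ b ∈ I a, a ∈ I b) (hI3 : ∀ a ∈ C, a ∉ I a)
    (hI4 : ∀ a ∈ C, (I a).card = s) :
    ∃ (R : ℕ) (P : W → Finset W), Even R ∧ R < C.card ∧ (∀ a ∈ C, ∀ b ∈ P a, b ∈ C) ∧
      (∀ a ∈ C, ∀ b ∈ P a, a ∈ P b) ∧ (∀ a ∈ C, a ∉ P a) ∧ (∀ a ∈ C, (P a).card = R) ∧
      ∀ a ∈ C, (I a \ P a).card ≤ 1 := by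
  classical
  haveI : Nonempty C := hC.coe_sort
  let N : C → Finset C := fun a => (I a).subtype (· ∈ C)
  have hN : ∀ a b : C, b ∈ N a ↔ (b : W) ∈ I a := by
    intro a b
    simp [N, Finset.mem_subtype]
  obtain ⟨R, P', hR, hRC, h1, h2, h3, h4⟩ := hPR C N s (by
      intro a b hb
      rw [hN] at hb ⊢
      exact hI2 a a.2 b hb) (by
      intro a ha
      rw [hN] at ha
      exact hI3 a a.2 ha) (by
      intro a
      rw [← hI4 a a.2]
      rw [Finset.card_subtype]
      congr 1
      apply Finset.filter_true_of_mem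
      intro w hw
      exact hI1 a a.2 w hw)
  refine ⟨R, ext C P', hR, by rwa [Fintype.card_coe] at hRC, ?_, ?_, ?_, ?_, ?_⟩
  · intro a _ b hb
    rw [mem_ext] at hb
    exact hb.2.1
  · intro a _ b hb
    rw [mem_ext] at hb ⊢
    obtain ⟨ha, hb', h⟩ := hb
    exact ⟨hb', ha, h1 _ _ h⟩
  · intro a _ h
    rw [mem_ext] at h
    obtain ⟨ha, _, h⟩ := h
    exact h2 _ h
  · intro a ha
    rw [card_ext C P' a ha]
    exact h3 _
  · intro a ha
    refine le_trans ?_ (h4 ⟨a, ha⟩)
    have : I a \ ext C P' a ⊆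
        (N ⟨a, ha⟩ \ P' ⟨a, ha⟩).map (Function.Embedding.subtype _) := by
      intro b hb
      rw [mem_sdiff, mem_ext] at hb
      have hbC : b ∈ C := hI1 a ha b hb.1
      rw [mem_map]
      refine ⟨⟨b, hbC⟩, ?_, rfl⟩
      rw [mem_sdiff, hN]
      exact ⟨hb.1, fun h => hb.2 ⟨ha, hbC, h⟩⟩
    refine le_trans (Finset.card_le_card this) ?_
    rw [Finset.card_map]

theorem ncard_filter {W : Type} [Fintype W] (p : W → Prop) [DecidablePred p] :
    {a | p a}.ncard = (univ.filter (fun a => p a)).card := by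
  rw [← Set.ncard_coe_finset]
  congr 1
  ext a
  simp

theorem deg_eq (W : Type) [Fintype W] [DecidableEq W] (G' : SimpleGraph W)
    [DecidableRel G'.Adj] (r : W → W → Prop) [DecidableRel r] (hr : Equivalence r)
    (heq : ∀ v w u, r v w → (univ.filter (fun a => G'.Adj v a ∧ r u a)).card =
      (univ.filter (fun a => G'.Adj w a ∧ r u a)).card) (v w : W) (hvw : r v w) :
    (univ.filter (fun a => G'.Adj v a)).card = (univ.filter (fun a => G'.Adj w a)).card := by
  classical
  let s : Setoid W := ⟨r, hr⟩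
  have key : ∀ x : W, (univ.filter (fun a => G'.Adj x a)).card =
      ∑ q : Quotient s, ((univ.filter (fun a => G'.Adj x a)).filter
        (fun a => (⟦a⟧ : Quotient s) = q)).card := by
    intro x
    exact Finset.card_eq_sum_card_fiberwise (f := fun a => (⟦a⟧ : Quotient s))
      (t := univ) (by intro a _; simp)
  rw [key v, key w]
  refine Finset.sum_congr rfl fun q _ => ?_
  obtain ⟨u, rfl⟩ := Quotient.exists_rep q
  have h : ∀ x : W, (univ.filter (fun a => G'.Adj x a)).filter
      (fun a => (⟦a⟧ : Quotient s) = ⟦u⟧) = univ.filter (fun a => G'.Adj x a ∧ r u a) := by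
    intro x
    rw [Finset.filter_filter]
    apply Finset.filter_congr
    intro a _
    have : ((⟦a⟧ : Quotient s) = ⟦u⟧) ↔ r u a := by
      rw [Quotient.eq]
      exact ⟨fun h => hr.symm h, fun h => hr.symm h⟩
    rw [this]
  rw [h v, h w]
  exact heq v w u hvw

end TCOMP

open TCOMP in
theorem t_COMP (hINS : S_INS) (hPR : S_PR) (hKO : S_KO) (hCI : S_CI) (hDEP : S_DEP) : S_COMP := by
  intro W _ G' r hr heq0 Δ D hΔ hD0 X hXne hX hconn
  classical
  have heq : ∀ v w u, r v w → (univ.filter (fun a => G'.Adj v a ∧ r u a)).card =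
      (univ.filter (fun a => G'.Adj w a ∧ r u a)).card := by
    intro v w u hvw
    have := heq0 v w u hvw
    rwa [ncard_filter, ncard_filter] at this
  have hD : ∀ v, Δ * (univ.filter (fun a => r v a)).card +
      (univ.filter (fun a => G'.Adj v a)).card ≤ D := by
    intro v
    have := hD0 v
    rwa [ncard_filter, ncard_filter] at this
  have hdeg := deg_eq W G' r hr heq
  have hex : ∀ v w u, r v w → G'.Adj v u → ∃ u', r u u' ∧ G'.Adj w u' := by
    intro v w u hvw hvu
    have h1 : u ∈ univ.filter (fun a => G'.Adj v a ∧ r u a) := by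
      simp [hvu, hr.refl u]
    have h2 : 0 < (univ.filter (fun a => G'.Adj w a ∧ r u a)).card := by
      rw [← heq v w u hvw]
      exact Finset.card_pos.mpr ⟨u, h1⟩
    obtain ⟨u', hu'⟩ := Finset.card_pos.mp h2
    simp only [mem_filter, mem_univ, true_and] at hu'
    exact ⟨u', hu'.2, hu'.1⟩
  have hcls : ∀ v w, r v w → univ.filter (fun a => r v a) = univ.filter (fun a => r w a) := by
    intro v w hvw
    ext a
    simp only [mem_filter, mem_univ, true_and]
    exact ⟨fun h => hr.trans (hr.symm hvw) h, fun h => hr.trans hvw h⟩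
  -- inner neighbours
  let inn : W → Finset W := fun v => univ.filter (fun a => G'.Adj v a ∧ r v a)
  have hinn : ∀ v w, r v w → (inn v).card = (inn w).card := by
    intro v w hvw
    simp only [inn]
    rw [heq v w v hvw]
    congr 1
    ext a
    simp only [mem_filter, mem_univ, true_and]
    constructor
    · rintro ⟨h1, h2⟩; exact ⟨h1, hr.trans (hr.symm hvw) h2⟩
    · rintro ⟨h1, h2⟩; exact ⟨h1, hr.trans hvw h2⟩
  let bad : W → Prop := fun v => Δ * (univ.filter (fun a => r v a)).card +
      (univ.filter (fun a => G'.Adj v a)).card = D ∧ 0 < (inn v).card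
  have hbadr : ∀ v w, r v w → bad v → bad w := by
    intro v w hvw hv
    simp only [bad] at hv ⊢
    rw [← hcls v w hvw, ← hdeg v w hvw, ← hinn v w hvw]
    exact hv
  by_cases hall : ∀ v ∈ X, bad v
  · -- all classes are bad: choose the smallest class
    obtain ⟨ρ, hρX, hρmin⟩ := Finset.exists_min_image X
      (fun v => (univ.filter (fun a => r v a)).card) hXne
    let Z : Finset W := univ.filter (fun a => r ρ a)
    have hρZ : ρ ∈ Z := by simp [Z, hr.refl ρ]
    have hZmem : ∀ v, v ∈ Z ↔ r ρ v := by intro v; simp [Z]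
    have hZX : Z ⊆ X := by
      intro v hv
      rw [hZmem] at hv
      exact hX ρ hρX v (Or.inr hv)
    obtain ⟨R, P0, hReven, hRC, hP1, hP2, hP3, hP4, hP5⟩ := rt hPR W Z ⟨ρ, hρZ⟩ inn (inn ρ).card
      (by
        intro a ha b hb
        simp only [inn, mem_filter, mem_univ, true_and] at hb
        rw [hZmem] at ha ⊢
        exact hr.trans ha hb.2)
      (by
        intro a _ b hb
        simp only [inn, mem_filter, mem_univ, true_and] at hb ⊢
        exact ⟨hb.1.symm, hr.symm hb.2⟩)
      (by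
        intro a _ ha
        simp only [inn, mem_filter, mem_univ, true_and] at ha
        exact G'.loopless.irrefl a ha.1)
      (by
        intro a ha
        rw [hZmem] at ha
        exact (hinn ρ a ha).symm)
    have hRlt : ∀ v ∈ X, R < (univ.filter (fun a => r v a)).card := by
      intro v hv
      exact lt_of_lt_of_le hRC (hρmin v hv)
    let s : Setoid W := ⟨r, hr⟩
    have hNex : ∀ q : Quotient s, ∃ N : W → Finset W, ∀ u ∈ X, (⟦u⟧ : Quotient s) = q →
        ((∀ b ∈ N u, r u b) ∧ (∀ b ∈ N u, u ∈ N b) ∧ u ∉ N u ∧ (N u).card = R) := by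
      intro q
      obtain ⟨u0, rfl⟩ := Quotient.exists_rep q
      by_cases hu0 : u0 ∈ X
      · obtain ⟨N, h1, h2, h3, h4⟩ := cl hCI W (univ.filter (fun a => r u0 a)) R hReven
          (hRlt u0 hu0)
        refine ⟨N, fun u hu huq => ?_⟩
        have hru : r u0 u := hr.symm (Quotient.exact huq)
        have hmem : u ∈ univ.filter (fun a => r u0 a) := by simp [hru]
        refine ⟨?_, h2 u hmem, h3 u hmem, h4 u hmem⟩
        intro b hb
        have := h1 u hmem b hb
        simp only [mem_filter, mem_univ, true_and] at this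
        exact hr.trans (hr.symm hru) this
      · refine ⟨fun _ => ∅, fun u hu huq => ?_⟩
        exfalso
        apply hu0
        exact hX u hu u0 (Or.inr (Quotient.exact huq))
    choose Nq hNq using hNex
    let P : W → Finset W := fun v => if v ∈ Z then P0 v else Nq ⟦v⟧ v
    have hZr : ∀ v w, r v w → (v ∈ Z ↔ w ∈ Z) := by
      intro v w hvw
      rw [hZmem, hZmem]
      exact ⟨fun h => hr.trans h hvw, fun h => hr.trans h (hr.symm hvw)⟩
    have hPc : ∀ v ∈ X, ∀ w ∈ P v, r v w := by
      intro v hv w hw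
      by_cases hvZ : v ∈ Z
      · simp only [P, hvZ, if_true] at hw
        have h1 := hP1 v hvZ w hw
        rw [hZmem] at h1 hvZ
        exact hr.trans (hr.symm hvZ) h1
      · simp only [P, hvZ, if_false] at hw
        exact (hNq ⟦v⟧ v hv rfl).1 w hw
    refine TCORE.core hINS hKO hDEP W G' r hr hex hdeg Δ D hΔ hD X hX hconn R P hPc ?_ ?_ ?_ hRlt
      Z hZX ⟨ρ, hρZ⟩ (fun v hv w hvw => (hZr v w hvw).mp hv) ?_
    · intro v hv w hw
      have hvw := hPc v hv w hw
      by_cases hvZ : v ∈ Z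
      · have hwZ : w ∈ Z := (hZr v w hvw).mp hvZ
        simp only [P, hvZ, if_true] at hw
        simp only [P, hwZ, if_true]
        exact hP2 v hvZ w hw
      · have hwZ : w ∉ Z := fun h => hvZ ((hZr v w hvw).mpr h)
        simp only [P, hvZ, if_false] at hw
        simp only [P, hwZ, if_false]
        have hq : (⟦w⟧ : Quotient s) = ⟦v⟧ := Quotient.sound (hr.symm hvw)
        rw [hq]
        exact (hNq ⟦v⟧ v hv rfl).2.1 w hw
    · intro v hv
      by_cases hvZ : v ∈ Z
      · simp only [P, hvZ, if_true]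
        exact hP3 v hvZ
      · simp only [P, hvZ, if_false]
        exact (hNq ⟦v⟧ v hv rfl).2.2.1
    · intro v hv
      by_cases hvZ : v ∈ Z
      · simp only [P, hvZ, if_true]
        exact hP4 v hvZ
      · simp only [P, hvZ, if_false]
        exact (hNq ⟦v⟧ v hv rfl).2.2.2
    · intro x hx _
      refine le_trans (Finset.card_le_card ?_) (hP5 x hx)
      intro u hu
      simp only [mem_filter, mem_univ, true_and, P, hx, if_true] at hu
      simp only [mem_sdiff, inn, mem_filter, mem_univ, true_and]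
      exact ⟨⟨hu.1, hu.2.1⟩, hu.2.2⟩
  · -- a class which is not bad
    push Not at hall
    obtain ⟨v0, hv0, hv0bad⟩ := hall
    refine TCORE.core hINS hKO hDEP W G' r hr hex hdeg Δ D hΔ hD X hX hconn 0 (fun _ => ∅)
      (by simp) (by simp) (by simp) (by simp) ?_ (X.filter (fun v => ¬ bad v))
      (Finset.filter_subset _ _) ⟨v0, mem_filter.mpr ⟨hv0, hv0bad⟩⟩ ?_ ?_
    · intro v _
      exact Finset.card_pos.mpr ⟨v, by simp [hr.refl v]⟩
    · intro v hv w hvw
      rw [mem_filter] at hv ⊢
      refine ⟨hX v hv.1 w (Or.inr hvw), fun h => hv.2 (hbadr w v (hr.symm hvw) h)⟩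
    · intro x hx hxD
      rw [mem_filter] at hx
      have h0 : (inn x).card = 0 := by
        by_contra h
        exact hx.2 ⟨hxD, Nat.pos_of_ne_zero h⟩
      refine le_trans (Finset.card_le_card ?_) (le_trans (le_of_eq h0) (Nat.zero_le 1))
      intro u hu
      simp only [mem_filter, mem_univ, true_and] at hu
      simp only [inn, mem_filter, mem_univ, true_and]
      exact ⟨hu.1, hu.2.1⟩

end Pool.Agent.W143.WP
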