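import Pool.Agent.W143.WP.Stm

/-! The depth function. -/

set_option autoImplicit false
open Finset

namespace Pool.Agent.W143.WP

theorem t_DEP : S_DEP := by
  classical
  intro W _ _ G' r hr heq X Z hX hconn hZX hZne hZr
  -- layers
  let step : Finset W → Finset W := fun S => S ∪ univ.filter (fun v : W => ∃ w ∈ S, G'.Adj v w)
  let L : ℕ → Finset W := fun n => step^[n] Z
  have hL0 : L 0 = Z := rfl
  have hLs : ∀ n, L (n + 1) = step (L n) := fun n => Function.iterate_succ_apply' step n Z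
  have hstep : ∀ S v, v ∈ step S ↔ v ∈ S ∨ ∃ w ∈ S, G'.Adj v w := by
    intro S v
    simp [step]
  have hmono1 : ∀ n, L n ⊆ L (n + 1) := by
    intro n v hv
    rw [hLs, hstep]
    exact Or.inl hv
  have hmono : ∀ a b, a ≤ b → L a ⊆ L b := fun a b h => monotone_nat_of_le_succ hmono1 h
  have hLX : ∀ n, L n ⊆ X := by
    intro n
    induction n with
    | zero => exact hZX
    | succ n ih =>
      intro v hv
      rw [hLs, hstep] at hv
      rcases hv with hv | ⟨w, hw, hvw⟩
      · exact ih hv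
      · exact hX w (ih hw) v (Or.inl hvw.symm)
  have hLr : ∀ n, ∀ v ∈ L n, ∀ w, r v w → w ∈ L n := by
    intro n
    induction n with
    | zero => exact hZr
    | succ n ih =>
      intro v hv w hvw
      rw [hLs, hstep] at hv ⊢
      rcases hv with hv | ⟨u, hu, hvu⟩
      · exact Or.inl (ih v hv w hvw)
      · obtain ⟨u', hu', hwu'⟩ := heq v w u hvw hvu
        exact Or.inr ⟨u', ih u hu u' hu', hwu'⟩
  -- the union
  have hall : ∀ v ∈ X, ∃ n : ℕ, v ∈ L n := by
    let P : W → Prop := fun v => ∃ n : ℕ, v ∈ L n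
    let S : Finset W := univ.filter P
    have hmemS : ∀ v, v ∈ S ↔ ∃ n : ℕ, v ∈ L n := by
      intro v
      change v ∈ univ.filter P ↔ P v
      simp
    have hSX : S = X := by
      apply hconn
      · intro v hv
        obtain ⟨n, hn⟩ := (hmemS v).1 hv
        exact hLX n hn
      · obtain ⟨z, hz⟩ := hZne
        exact ⟨z, (hmemS z).2 ⟨0, hz⟩⟩
      · intro v hv w hvw
        obtain ⟨n, hn⟩ := (hmemS v).1 hv
        rw [hmemS]
        rcases hvw with hvw | hvw
        · refine ⟨n + 1, ?_⟩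
          rw [hLs, hstep]
          exact Or.inr ⟨v, hn, hvw.symm⟩
        · exact ⟨n, hLr n v hn w hvw⟩
    intro v hv
    rw [← hSX] at hv
    exact (hmemS v).1 hv
  refine ⟨fun v => sInf {n : ℕ | v ∈ L n}, ?_, ?_, ?_⟩
  · intro v hv
    have h : ({n : ℕ | v ∈ L n} : Set ℕ).Nonempty := hall v hv
    constructor
    · intro h0
      have := Nat.sInf_mem h
      have h2 : sInf {n : ℕ | v ∈ L n} = 0 := h0
      rw [h2] at this
      exact this
    · intro hz
      exact Nat.le_zero.1 (Nat.sInf_le (show (0 : ℕ) ∈ {n : ℕ | v ∈ L n} from hz))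
  · intro v w hvw
    have hiff : {n : ℕ | v ∈ L n} = {n : ℕ | w ∈ L n} := by
      ext n
      exact ⟨fun h => hLr n v h w hvw, fun h => hLr n w h v (hr.symm hvw)⟩
    change sInf {n : ℕ | v ∈ L n} = sInf {n : ℕ | w ∈ L n}
    rw [hiff]
  · intro v hv hpos
    have h : ({n : ℕ | v ∈ L n} : Set ℕ).Nonempty := hall v hv
    replace hpos : 0 < sInf {n : ℕ | v ∈ L n} := hpos
    obtain ⟨n, hn⟩ : ∃ n, sInf {n : ℕ | v ∈ L n} = n + 1 := ⟨sInf {n : ℕ | v ∈ L n} - 1, by omega⟩
    have h1 : v ∈ L (n + 1) := by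
      have := Nat.sInf_mem h
      rw [hn] at this
      exact this
    have h2 : v ∉ L n := fun h2 => by
      have := Nat.sInf_le (show n ∈ {n : ℕ | v ∈ L n} from h2)
      omega
    rw [hLs, hstep] at h1
    rcases h1 with h1 | ⟨w, hw, hvw⟩
    · exact absurd h1 h2
    · refine ⟨w, hLX n hw, hvw, ?_⟩
      change sInf {n : ℕ | w ∈ L n} < sInf {n : ℕ | v ∈ L n}
      have := Nat.sInf_le (show n ∈ {n : ℕ | w ∈ L n} from hw)
      omega

end Pool.Agent.W143.WP
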