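import Pool.Agent.W143.WP.Stm

set_option autoImplicit false
open Finset

namespace Pool.Agent.W143.WP

namespace TKO

lemma general {α : Type} [Fintype α] [DecidableEq α] (R : ℕ) :
    ∀ N : α → Finset α, (∀ a, (N a).card = R) →
      (∀ b, (univ.filter (fun a => b ∈ N a)).card = R) →
      ∃ f : α → α → ℕ, (∀ a, ∀ b ∈ N a, f a b < R) ∧
        (∀ a, ∀ b ∈ N a, ∀ b' ∈ N a, f a b = f a b' → b = b') ∧
        (∀ b a a', b ∈ N a → b ∈ N a' → f a b = f a' b → a = a') := by
  induction R with
  | zero =>
    intro N hN _
    refine ⟨fun _ _ => 0, ?_, ?_, ?_⟩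
    · intro a b hb
      rw [card_eq_zero.mp (hN a)] at hb
      exact absurd hb (notMem_empty b)
    · intro a b hb
      rw [card_eq_zero.mp (hN a)] at hb
      exact absurd hb (notMem_empty b)
    · intro b a a' hb
      rw [card_eq_zero.mp (hN a)] at hb
      exact absurd hb (notMem_empty b)
  | succ R ih =>
    intro N hN hN'
    have hHall : ∀ S : Finset α, S.card ≤ (S.biUnion N).card := by
      intro S
      have h := card_mul_le_card_mul (s := S) (t := S.biUnion N) (m := R + 1) (n := R + 1)
        (fun a b => b ∈ N a)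
        (fun a ha => by
          rw [← hN a]
          apply card_le_card
          intro b hb
          rw [mem_bipartiteAbove]
          exact ⟨mem_biUnion.mpr ⟨a, ha, hb⟩, hb⟩)
        (fun b _ => by
          rw [← hN' b]
          apply card_le_card
          intro a ha
          rw [mem_bipartiteBelow] at ha
          exact mem_filter.mpr ⟨mem_univ _, ha.2⟩)
      exact Nat.le_of_mul_le_mul_right h (Nat.succ_pos R)
    obtain ⟨g, hg, hgN⟩ := (all_card_le_biUnion_card_iff_exists_injective N).mp hHall
    have hgs : Function.Surjective g := Finite.injective_iff_surjective.mp hg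
    obtain ⟨f, hf1, hf2, hf3⟩ := ih (fun a => (N a).erase (g a))
      (fun a => by rw [card_erase_of_mem (hgN a), hN a]; rfl)
      (fun b => by
        obtain ⟨a₀, rfl⟩ := hgs b
        have : univ.filter (fun a => g a₀ ∈ (N a).erase (g a)) =
            (univ.filter (fun a => g a₀ ∈ N a)).erase a₀ := by
          ext a
          simp only [mem_filter, mem_univ, true_and, mem_erase]
          constructor
          · rintro ⟨h1, h2⟩
            exact ⟨fun h => h1 (by rw [h]), h2⟩
          · rintro ⟨h1, h2⟩
            exact ⟨fun h => h1 (hg h.symm), h2⟩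
        have hm : a₀ ∈ univ.filter (fun a => g a₀ ∈ N a) := mem_filter.mpr ⟨mem_univ _, hgN a₀⟩
        rw [this, card_erase_of_mem hm, hN']
        rfl)
    refine ⟨fun a b => if b = g a then R else f a b, ?_, ?_, ?_⟩
    · intro a b hb
      simp only
      split_ifs with h
      · exact Nat.lt_succ_self R
      · exact (hf1 a b (mem_erase.mpr ⟨h, hb⟩)).trans (Nat.lt_succ_self R)
    · intro a b hb b' hb'
      simp only
      split_ifs with h h' h'
      · intro _; rw [h, h']
      · intro he
        have := hf1 a b' (mem_erase.mpr ⟨h', hb'⟩)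
        omega
      · intro he
        have := hf1 a b (mem_erase.mpr ⟨h, hb⟩)
        omega
      · intro he
        exact hf2 a b (mem_erase.mpr ⟨h, hb⟩) b' (mem_erase.mpr ⟨h', hb'⟩) he
    · intro b a a' hb hb'
      simp only
      split_ifs with h h' h'
      · intro _; exact hg (h.symm.trans h')
      · intro he
        have := hf1 a' b (mem_erase.mpr ⟨h', hb'⟩)
        omega
      · intro he
        have := hf1 a b (mem_erase.mpr ⟨h, hb⟩)
        omega
      · intro he
        exact hf3 b a a' (mem_erase.mpr ⟨h, hb⟩) (mem_erase.mpr ⟨h', hb'⟩) he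

end TKO

theorem t_KO : S_KO := by
  intro α _ _ N R hsymm hN
  obtain ⟨f, h1, h2, h3⟩ := TKO.general R N hN (fun b => by
    rw [← hN b]
    congr 1
    ext a
    simp only [mem_filter, mem_univ, true_and]
    exact ⟨fun h => hsymm _ _ h, fun h => hsymm _ _ h⟩)
  exact ⟨f, h1, h2, fun a b hb b' hb' h => h3 a b b' (hsymm _ _ hb) (hsymm _ _ hb') h⟩

end Pool.Agent.W143.WP
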