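import Pool.Agent.W143.WP.Stm

/-! The frozen statement S09181 from the arrays. -/

set_option autoImplicit false
open Finset

namespace Pool.Agent.W143.WP

namespace TMAIN

/-- the relation of the wreath product -/
def rr {W : Type} (G' : SimpleGraph W) (v w : W) : Prop := ∃ φ : G' ≃g G', φ v = w

theorem rr_equiv {W : Type} (G' : SimpleGraph W) : Equivalence (rr G') := by
  refine ⟨fun v => ⟨SimpleGraph.Iso.refl, rfl⟩, ?_, ?_⟩
  · rintro v w ⟨φ, rfl⟩
    exact ⟨φ.symm, φ.symm_apply_apply v⟩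
  · rintro v w u ⟨φ, rfl⟩ ⟨ψ, rfl⟩
    exact ⟨φ.trans ψ, rfl⟩

theorem rr_equit {W : Type} [Fintype W] (G' : SimpleGraph W) (v w u : W) (h : rr G' v w) :
    {a | G'.Adj v a ∧ rr G' u a}.ncard = {a | G'.Adj w a ∧ rr G' u a}.ncard := by
  obtain ⟨φ, rfl⟩ := h
  have h1 : {a | G'.Adj (φ v) a ∧ rr G' u a} = φ '' {a | G'.Adj v a ∧ rr G' u a} := by
    ext b
    constructor
    · rintro ⟨h1, h2⟩
      refine ⟨φ.symm b, ⟨?_, ?_⟩, φ.apply_symm_apply b⟩
      · have := φ.symm.map_adj_iff.2 h1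
        rwa [φ.symm_apply_apply] at this
      · exact (rr_equiv G').trans h2 ⟨φ.symm, rfl⟩
    · rintro ⟨a, ⟨h1, h2⟩, rfl⟩
      exact ⟨φ.map_adj_iff.2 h1, (rr_equiv G').trans h2 ⟨φ, rfl⟩⟩
  rw [h1, Set.ncard_image_of_injective _ φ.injective]

/-- any proper colouring has at least `degree` colours -/
theorem degree_le {V : Type} (G : SimpleGraph V) [DecidableEq V] {k : ℕ} (c : Sym2 V → Fin k)
    (hc : ∀ e ∈ G.edgeSet, ∀ f ∈ G.edgeSet, e ≠ f → (∃ v, v ∈ e ∧ v ∈ f) → c e ≠ c f) (p : V)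
    [Fintype (G.neighborSet p)] : G.degree p ≤ k := by
  have h : (G.neighborFinset p).card ≤ (Finset.univ : Finset (Fin k)).card := by
    refine Finset.card_le_card_of_injOn (fun q => c s(p, q)) (fun _ _ => Finset.mem_univ _) ?_
    intro q hq q' hq' heq
    by_contra hne
    rw [Finset.mem_coe, SimpleGraph.mem_neighborFinset] at hq hq'
    refine hc s(p, q) hq s(p, q') hq' ?_ ⟨p, by simp, by simp⟩ heq
    intro h
    exact hne (Sym2.congr_right.1 h)
  simpa using h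

theorem aux (hA : S_ARR) (hC : S_COL) (V W : Type) [Fintype V] [Fintype W] (G : SimpleGraph V)
    (G' : SimpleGraph W) (H : SimpleGraph (V × W)) [DecidableRel G.Adj] [DecidableRel H.Adj]
    (hH : H = SimpleGraph.fromRel (fun p q : V × W =>
          (p.1 = q.1 ∧ G'.Adj p.2 q.2) ∨
          (G.Adj p.1 q.1 ∧ ∃ φ : G' ≃g G', φ p.2 = q.2)))
    (hne : G.edgeSet.Nonempty)
    (hG : sInf {k : ℕ | ∃ c : Sym2 V → Fin k, ∀ e ∈ G.edgeSet, ∀ f ∈ G.edgeSet,
            e ≠ f → (∃ v, v ∈ e ∧ v ∈ f) → c e ≠ c f} = G.maxDegree) :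
    sInf {k : ℕ | ∃ c : Sym2 (V × W) → Fin k, ∀ e ∈ H.edgeSet, ∀ f ∈ H.edgeSet,
            e ≠ f → (∃ v, v ∈ e ∧ v ∈ f) → c e ≠ c f} = H.maxDegree := by
  classical
  have hadj : ∀ p q, H.Adj p q ↔ (p.1 = q.1 ∧ G'.Adj p.2 q.2) ∨ (G.Adj p.1 q.1 ∧ rr G' p.2 q.2) := by
    intro p q
    rw [hH, SimpleGraph.fromRel_adj]
    constructor
    · rintro ⟨-, h | h⟩
      · exact h
      · rcases h with ⟨h1, h2⟩ | ⟨h1, h2⟩
        · exact Or.inl ⟨h1.symm, h2.symm⟩
        · exact Or.inr ⟨h1.symm, (rr_equiv G').symm h2⟩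
    · intro h
      refine ⟨?_, Or.inl h⟩
      rintro rfl
      rcases h with ⟨-, h⟩ | ⟨h, -⟩
      · exact G'.loopless.irrefl _ h
      · exact G.loopless.irrefl _ h
  by_cases hW : IsEmpty W
  · have h1 : H.maxDegree = 0 := by
      have : IsEmpty (V × W) := inferInstance
      exact H.maxDegree_of_subsingleton
    rw [h1]
    apply Nat.sInf_eq_zero.2
    left
    have hS : IsEmpty (Sym2 (V × W)) := ⟨fun e => Sym2.ind (fun x _ => hW.elim x.2) e⟩
    exact ⟨fun e => hS.elim e, fun e => hS.elim e⟩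
  rw [not_isEmpty_iff] at hW
  obtain ⟨e0, he0⟩ := hne
  have hVne : Nonempty V := by
    induction e0 using Sym2.ind with
    | _ x y => exact ⟨x⟩
  have hΔ : 0 < G.maxDegree := by
    induction e0 using Sym2.ind with
    | _ x y =>
      rw [SimpleGraph.mem_edgeSet] at he0
      have h1 : 0 < G.degree x := by
        rw [SimpleGraph.degree_pos_iff_exists_adj]
        exact ⟨y, he0⟩
      exact lt_of_lt_of_le h1 (G.degree_le_maxDegree x)
  set Δ := G.maxDegree with hΔd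
  set D := H.maxDegree with hDd
  have hmem : Δ ∈ {k : ℕ | ∃ c : Sym2 V → Fin k, ∀ e ∈ G.edgeSet, ∀ f ∈ G.edgeSet,
            e ≠ f → (∃ v, v ∈ e ∧ v ∈ f) → c e ≠ c f} := by
    rw [← hG]
    apply Nat.sInf_mem
    by_contra hcon
    rw [Set.not_nonempty_iff_eq_empty] at hcon
    rw [hcon, Nat.sInf_empty] at hG
    omega
  obtain ⟨l, hl⟩ := hmem
  obtain ⟨x, hx⟩ := G.exists_maximal_degree_vertex
  have hdeg : ∀ v, Δ * {a | rr G' v a}.ncard + {a | G'.Adj v a}.ncard ≤ D := by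
    intro v
    refine le_trans (le_of_eq ?_) (H.degree_le_maxDegree (x, v))
    have hN : ((H.neighborFinset (x, v) : Finset (V × W)) : Set (V × W)) =
        (G.neighborSet x) ×ˢ {a | rr G' v a} ∪ {x} ×ˢ {a | G'.Adj v a} := by
      ext ⟨y, w⟩
      rw [SimpleGraph.coe_neighborFinset, SimpleGraph.mem_neighborSet, hadj]
      simp only [Set.mem_union, Set.mem_prod, SimpleGraph.mem_neighborSet, Set.mem_ofPred_eq,
        Set.mem_singleton_iff]
      constructor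
      · rintro (⟨h1, h2⟩ | h)
        · exact Or.inr ⟨h1.symm, h2⟩
        · exact Or.inl h
      · rintro (h | ⟨h1, h2⟩)
        · exact Or.inr h
        · exact Or.inl ⟨h1.symm, h2⟩
    rw [← SimpleGraph.card_neighborFinset_eq_degree, ← Set.ncard_coe_finset, hN,
      Set.ncard_union_eq _ (Set.toFinite _) (Set.toFinite _), Set.ncard_prod, Set.ncard_prod,
      Set.ncard_singleton, one_mul]
    · congr 2
      rw [hΔd, hx, ← SimpleGraph.card_neighborFinset_eq_degree, ← Set.ncard_coe_finset,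
        SimpleGraph.coe_neighborFinset]
    · rw [Set.disjoint_left]
      rintro ⟨y, w⟩ ⟨h1, -⟩ ⟨h2, -⟩
      have h3 : y = x := h2
      subst h3
      exact G.loopless.irrefl _ h1
  obtain ⟨w0⟩ := hW
  have hD : 0 < D := by
    have h1 := hdeg w0
    have h2 : 0 < {a | rr G' w0 a}.ncard :=
      (Set.ncard_pos (Set.toFinite _)).2 ⟨w0, (rr_equiv G').refl w0⟩
    have h3 : 0 < Δ * {a | rr G' w0 a}.ncard := Nat.mul_pos hΔ h2
    omega
  obtain ⟨c, A, hArr⟩ := hA W G' (rr G') (rr_equiv G') (fun v w u => rr_equit G' v w u) Δ D hΔ hdeg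
  obtain ⟨col, hcol⟩ := hC V W G G' (rr G') (rr_equiv G') H hadj Δ D hD l hl c A hArr
  have hDmem : D ∈ {k : ℕ | ∃ c : Sym2 (V × W) → Fin k, ∀ e ∈ H.edgeSet, ∀ f ∈ H.edgeSet,
            e ≠ f → (∃ v, v ∈ e ∧ v ∈ f) → c e ≠ c f} := ⟨col, hcol⟩
  refine le_antisymm (Nat.sInf_le hDmem) ?_
  refine le_csInf ⟨D, hDmem⟩ ?_
  rintro k ⟨c', hc'⟩
  have hne2 : Nonempty (V × W) := ⟨(x, w0)⟩
  obtain ⟨p, hp⟩ := H.exists_maximal_degree_vertex
  rw [hDd, hp]
  exact degree_le H c' hc' p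

end TMAIN

theorem t_MAIN : S_ARR → S_COL → S_MAIN := by
  intro hA hC
  unfold S_MAIN
  classical
  intro V W _ _ G G' H hH hne hG
  exact TMAIN.aux hA hC V W G G' H hH hne hG

end Pool.Agent.W143.WP
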