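import Pool.Agent.W143.WP.Stm

set_option autoImplicit false
open Finset

namespace Pool.Agent.W143.WP

namespace TPM

variable {α : Type} [Fintype α] [DecidableEq α]

/-- the fixed points -/
def fx (σ : α → α) : Finset α := univ.filter (fun a => σ a = a)

lemma mem_fx {σ : α → α} {a : α} : a ∈ fx σ ↔ σ a = a := by simp [fx]

lemma fewer {σ σ' : α → α} (h : ∀ w, σ' w = w → σ w = w) {u : α} (hu : σ u = u)
    (hu' : σ' u ≠ u) : (fx σ').card < (fx σ).card := by
  apply card_lt_card
  refine ⟨fun w hw => mem_fx.mpr (h w (mem_fx.mp hw)), fun hcon => ?_⟩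
  exact hu' (mem_fx.mp (hcon (mem_fx.mpr hu)))

lemma even_fx {σ : α → α} (hσ : ∀ a, σ (σ a) = a) (he : Even (Fintype.card α)) :
    Even (fx σ).card := by
  have h1 : Even (univ.filter (fun a => ¬ σ a = a)).card := by
    have h2 : ∑ a ∈ univ.filter (fun a => ¬ σ a = a), (1 : ZMod 2) = 0 := by
      apply sum_involution (fun a _ => σ a)
      · intro a _; decide
      · intro a ha _
        exact (mem_filter.mp ha).2
      · intro a ha
        rw [mem_filter] at ha ⊢
        refine ⟨mem_univ _, ?_⟩
        intro h
        apply ha.2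
        rw [hσ a] at h
        exact h.symm
      · intro a _
        exact hσ a
    rw [sum_const, nsmul_eq_mul, mul_one] at h2
    exact (ZMod.natCast_eq_zero_iff_even).mp h2
  have h3 := card_filter_add_card_filter_not (s := (univ : Finset α)) (fun a => σ a = a)
  rw [card_univ] at h3
  rw [← h3, Nat.even_add] at he
  exact he.mpr h1

/-- admissible -/
def Ok (N : α → Finset α) (σ : α → α) : Prop :=
  (∀ a, σ (σ a) = a) ∧ ∀ a, σ a = a ∨ σ a ∈ N a

end TPM

open TPM in
theorem t_PM : S_PM := by
  classical
  intro α _ _ N k hsymm hirr hcard hdeg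
  obtain ⟨σ, hσ, hmin⟩ := exists_min_image (univ.filter (fun σ : α → α => Ok N σ))
    (fun σ => (fx σ).card) ⟨id, by
      rw [mem_filter]
      exact ⟨mem_univ _, fun _ => rfl, fun _ => Or.inl rfl⟩⟩
  obtain ⟨hinv, hor⟩ := (mem_filter.mp hσ).2
  have hmin' : ∀ σ', Ok N σ' → (fx σ).card ≤ (fx σ').card := fun σ' h =>
    hmin σ' (mem_filter.mpr ⟨mem_univ _, h⟩)
  have hinj : Function.Injective σ := fun a b hab => by rw [← hinv a, hab, hinv b]
  have hadj : ∀ u v, σ u = u → σ v = v → v ∉ N u := by
    intro u v hu hv huv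
    have hne : u ≠ v := by rintro rfl; exact hirr _ huv
    set σ' : α → α := fun w => if w = u then v else if w = v then u else σ w with hσ'
    have e1 : σ' u = v := by simp [hσ']
    have e2 : σ' v = u := by simp [hσ', hne.symm]
    have e3 : ∀ w, w ≠ u → w ≠ v → σ' w = σ w := by
      intro w h1 h2; simp [hσ', h1, h2]
    have hOk : Ok N σ' := by
      constructor
      · intro w
        by_cases h1 : w = u
        · rw [h1, e1, e2]
        · by_cases h2 : w = v
          · rw [h2, e2, e1]
          · rw [e3 w h1 h2, e3, hinv]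
            · intro h; apply h1; rw [← hinv w, h, hu]
            · intro h; apply h2; rw [← hinv w, h, hv]
      · intro w
        by_cases h1 : w = u
        · rw [h1, e1]; exact Or.inr huv
        · by_cases h2 : w = v
          · rw [h2, e2]; exact Or.inr (hsymm _ _ huv)
          · rw [e3 w h1 h2]; exact hor w
    have h1 := hmin' σ' hOk
    have h2 := fewer (σ := σ) (σ' := σ') (u := u) (by
      intro w hw
      by_cases h1 : w = u
      · rw [h1, hu]
      · by_cases h2 : w = v
        · rw [h2, hv]
        · rwa [e3 w h1 h2] at hw) hu (by rw [e1]; exact hne.symm)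
    omega
  refine ⟨σ, hinv, fun u => (hor u).resolve_left ?_⟩
  intro hu
  have heven := even_fx hinv ⟨k, by rw [hcard]; ring⟩
  have hpos : 0 < (fx σ).card := card_pos.mpr ⟨u, mem_fx.mpr hu⟩
  have h2 : 1 < (fx σ).card := by
    obtain ⟨r, hr⟩ := heven
    omega
  obtain ⟨v, hvf, hvu⟩ := exists_mem_ne h2 u
  have hv : σ v = v := mem_fx.mp hvf
  set M := univ.filter (fun a => ¬ σ a = a) with hM
  have hMc : M.card + 2 ≤ 2 * k := by
    have hsub : M ⊆ (univ.erase u).erase v := by
      intro a ha
      rw [hM, mem_filter] at ha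
      rw [mem_erase, mem_erase]
      refine ⟨?_, ?_, mem_univ _⟩
      · rintro rfl; exact ha.2 hv
      · rintro rfl; exact ha.2 hu
    have h3 := card_le_card hsub
    rw [card_erase_of_mem (mem_erase.mpr ⟨hvu, mem_univ _⟩), card_erase_of_mem (mem_univ _),
      card_univ, hcard] at h3
    have h4 : 2 ≤ Fintype.card α := by
      have : ({u, v} : Finset α).card ≤ Fintype.card α := card_le_univ _
      rwa [card_pair hvu.symm] at this
    omega
  have hNM : ∀ w, σ w = w → N w ⊆ M := by
    intro w hw a ha
    rw [hM, mem_filter]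
    exact ⟨mem_univ _, fun h => hadj w a hw h ha⟩
  have him : (N v).image σ ⊆ M := by
    intro a ha
    obtain ⟨b, hb, rfl⟩ := mem_image.mp ha
    have := hNM v hv hb
    rw [hM, mem_filter] at this ⊢
    exact ⟨mem_univ _, fun h => this.2 (hinj h)⟩
  have hne : (N u ∩ (N v).image σ).Nonempty := by
    rw [← card_pos]
    have h3 := card_union_add_card_inter (N u) ((N v).image σ)
    have h4 := card_le_card (union_subset (hNM u hu) him)
    have h5 : ((N v).image σ).card = (N v).card := card_image_of_injective _ hinj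
    have h6 := hdeg u
    have h7 := hdeg v
    omega
  obtain ⟨a, ha⟩ := hne
  rw [mem_inter] at ha
  obtain ⟨hau, hav⟩ := ha
  obtain ⟨b, hb, hba⟩ := mem_image.mp hav
  have hab : σ a = b := by rw [← hba, hinv]
  have haM : ¬ σ a = a := by
    have := hNM u hu hau
    rw [hM, mem_filter] at this
    exact this.2
  have hbM : ¬ σ b = b := by
    have := hNM v hv hb
    rw [hM, mem_filter] at this
    exact this.2
  have n1 : a ≠ u := by rintro rfl; exact haM hu
  have n2 : a ≠ v := by rintro rfl; exact haM hv
  have n3 : b ≠ u := by rintro rfl; exact hbM hu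
  have n4 : b ≠ v := by rintro rfl; exact hbM hv
  have n5 : b ≠ a := by intro h; apply haM; rw [hab, h]
  set σ' : α → α := fun w => if w = u then a else if w = a then u else if w = v then b else
    if w = b then v else σ w with hσ'
  have e1 : σ' u = a := by simp [hσ']
  have e2 : σ' a = u := by simp [hσ', n1]
  have e3 : σ' v = b := by simp [hσ', hvu, n2.symm]
  have e4 : σ' b = v := by simp [hσ', n3, n5, n4]
  have e5 : ∀ w, w ≠ u → w ≠ a → w ≠ v → w ≠ b → σ' w = σ w := by
    intro w h1 h2 h3 h4; simp [hσ', h1, h2, h3, h4]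
  have hOk : Ok N σ' := by
    constructor
    · intro w
      by_cases h1 : w = u
      · rw [h1, e1, e2]
      by_cases h2 : w = a
      · rw [h2, e2, e1]
      by_cases h3 : w = v
      · rw [h3, e3, e4]
      by_cases h4 : w = b
      · rw [h4, e4, e3]
      rw [e5 w h1 h2 h3 h4, e5, hinv]
      · intro h; apply h1; rw [← hinv w, h, hu]
      · intro h; apply h4; rw [← hinv w, h, hab]
      · intro h; apply h3; rw [← hinv w, h, hv]
      · intro h; apply h2; rw [← hinv w, h, hba]
    · intro w
      by_cases h1 : w = u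
      · rw [h1, e1]; exact Or.inr hau
      by_cases h2 : w = a
      · rw [h2, e2]; exact Or.inr (hsymm _ _ hau)
      by_cases h3 : w = v
      · rw [h3, e3]; exact Or.inr hb
      by_cases h4 : w = b
      · rw [h4, e4]; exact Or.inr (hsymm _ _ hb)
      rw [e5 w h1 h2 h3 h4]; exact hor w
  have h1 := hmin' σ' hOk
  have h2 := fewer (σ := σ) (σ' := σ') (u := u) (by
    intro w hw
    by_cases h1 : w = u
    · rw [h1, hu]
    by_cases h2 : w = a
    · rw [h2, e2] at hw; exact absurd hw.symm n1
    by_cases h3 : w = v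
    · rw [h3, hv]
    by_cases h4 : w = b
    · rw [h4, e4] at hw; exact absurd hw.symm n4
    rwa [e5 w h1 h2 h3 h4] at hw) hu (by rw [e1]; exact n1)
  omega

end Pool.Agent.W143.WP
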