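import Pool.Agent.W143.WP.Stm

set_option autoImplicit false
open Finset

namespace Pool.Agent.W143.WP

namespace TPR

variable {α : Type} [Fintype α] [DecidableEq α]

/-- handshake lemma -/
lemma even_mul {N : α → Finset α} {r : ℕ} (hsymm : ∀ a b, b ∈ N a → a ∈ N b)
    (hirr : ∀ a, a ∉ N a) (hN : ∀ a, (N a).card = r) : Even (Fintype.card α * r) := by
  have h1 : ∑ p ∈ (univ : Finset (α × α)).filter (fun p => p.2 ∈ N p.1), (1 : ZMod 2) = 0 := by
    apply sum_involution (fun p _ => (p.2, p.1))
    · intro p _; decide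
    · intro p hp _ h
      have h2 : p.2 = p.1 := congrArg Prod.fst h
      have h3 := (mem_filter.mp hp).2
      rw [h2] at h3
      exact hirr _ h3
    · intro p hp
      rw [mem_filter] at hp ⊢
      exact ⟨mem_univ _, hsymm _ _ hp.2⟩
    · intro p _; rfl
  have h2 : ((univ : Finset (α × α)).filter (fun p => p.2 ∈ N p.1)).card = Fintype.card α * r := by
    have : (univ : Finset (α × α)).filter (fun p => p.2 ∈ N p.1) =
        ((univ : Finset α).sigma N).map (Equiv.sigmaEquivProd α α).toEmbedding := by
      ext p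
      simp
    rw [this, card_map, card_sigma]
    simp [hN]
  rw [sum_const, nsmul_eq_mul, mul_one, h2] at h1
  exact ZMod.natCast_eq_zero_iff_even.mp h1

end TPR

theorem t_PR : S_PM → S_PR := by
  classical
  intro hPM α _ _ _ N r hsymm hirr hN
  have hlt : r < Fintype.card α := by
    obtain ⟨a⟩ := ‹Nonempty α›
    rw [← hN a, ← card_univ]
    apply card_lt_card
    refine ⟨subset_univ _, fun h => hirr a (h (mem_univ a))⟩
  by_cases hr : Even r
  · exact ⟨r, N, hr, hlt, hsymm, hirr, hN, fun a => by simp⟩
  have hev := TPR.even_mul hsymm hirr hN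
  have hcard : Even (Fintype.card α) := (Nat.even_mul.mp hev).resolve_right hr
  obtain ⟨k, hk⟩ := hcard
  have hodd : Odd r := Nat.not_even_iff_odd.mp hr
  by_cases hrk : k ≤ r
  · obtain ⟨σ, hσ, hσN⟩ := hPM α N k hsymm hirr (by omega) (fun a => by rw [hN a]; exact hrk)
    refine ⟨r - 1, fun a => (N a).erase (σ a), ?_, by omega, ?_, ?_, ?_, ?_⟩
    · obtain ⟨q, hq⟩ := hodd
      exact ⟨q, by omega⟩
    · intro a b hb
      rw [mem_erase] at hb ⊢
      refine ⟨?_, hsymm _ _ hb.2⟩
      rintro rfl
      rw [hσ] at hb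
      exact hb.1 rfl
    · intro a ha
      exact hirr a (mem_erase.mp ha).2
    · intro a
      rw [card_erase_of_mem (hσN a), hN a]
    · intro a
      have : N a \ (N a).erase (σ a) ⊆ {σ a} := by
        intro b hb
        rw [mem_sdiff, mem_erase] at hb
        rw [mem_singleton]
        by_contra h
        exact hb.2 ⟨h, hb.1⟩
      simpa using card_le_card this
  · have hcompl : ∀ a, ((univ \ N a).erase a).card = 2 * k - 1 - r := by
      intro a
      rw [card_erase_of_mem (mem_sdiff.mpr ⟨mem_univ _, hirr a⟩),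
        card_sdiff_of_subset (subset_univ _), card_univ, hN a]
      omega
    obtain ⟨σ, hσ, hσN⟩ := hPM α (fun a => (univ \ N a).erase a) k
      (fun a b hb => by
        simp only [mem_erase, mem_sdiff, mem_univ, true_and] at hb ⊢
        exact ⟨fun h => hb.1 h.symm, fun h => hb.2 (hsymm _ _ h)⟩)
      (fun a ha => by simp at ha) (by omega) (fun a => by rw [hcompl a]; omega)
    have hσ1 : ∀ a, σ a ≠ a := fun a => (mem_erase.mp (hσN a)).1
    have hσ2 : ∀ a, σ a ∉ N a := fun a => (mem_sdiff.mp (mem_erase.mp (hσN a)).2).2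
    refine ⟨r + 1, fun a => insert (σ a) (N a), hodd.add_one, by omega, ?_, ?_, ?_, ?_⟩
    · intro a b hb
      rw [mem_insert] at hb ⊢
      rcases hb with rfl | hb
      · exact Or.inl (hσ a).symm
      · exact Or.inr (hsymm _ _ hb)
    · intro a ha
      rw [mem_insert] at ha
      rcases ha with h | h
      · exact hσ1 a h.symm
      · exact hirr a h
    · intro a
      rw [card_insert_of_notMem (hσ2 a), hN a]
    · intro a
      have : N a \ insert (σ a) (N a) = ∅ := by
        rw [sdiff_eq_empty_iff_subset]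
        exact subset_insert _ _
      rw [this]; simp

end Pool.Agent.W143.WP
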